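import Pool.Agent.R624.GT.Lib

/-!
`s_hist`: a normal structure at `A` makes the degree of `A` graph-cototal.
-/

set_option autoImplicit false

namespace R624GT

open Pool.Agent.R624.EDeg
open Pool.Agent.Helper446
open Pool.Agent.Helper446.RE (cid cconst ccomp cfst csnd cpair cadd csub cmul cmin cmax csucc
  cappend ccons clength cgetElem cencode cdecode csome cisSome cnot cand cor cunpair cnatpair
  cmapsnd cmapfst ccond)

/-- The general lemma: closed sets, for each `n` in `A` exactly one of them. -/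
theorem gl {γ : Type} [Primcodable γ] [Inhabited γ] (A : Set ℕ) (valid : ℕ × γ → Bool) (hv : Computable valid)
    (κ : γ → ℕ) (hκ : Computable κ) (n₀ : ℕ)
    (h1 : ∀ n ≥ n₀, ∀ j, valid (n, j) = true → ¬ T A (κ j) → n ∈ A)
    (h2 : ∀ n ≥ n₀, n ∈ A → ∃ j, valid (n, j) = true ∧ ¬ T A (κ j) ∧
      ∀ j', valid (n, j') = true → ¬ T A (κ j') → j' = j) :
    ∃ f : ℕ → ℕ, ERed (Graph f)ᶜ A ∧ ERed A (Graph f)ᶜ := by
  classical
  -- the finite part
  obtain ⟨l, hl⟩ : ∃ l : List ℕ, ∀ n < n₀, n ∈ l ↔ n ∈ A :=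
    ⟨(List.range n₀).filter (fun n => n ∈ A), by
      intro n hn
      simp [hn]⟩
  have hj : ∀ n, ∃ j : γ, n₀ ≤ n → n ∈ A → valid (n, j) = true ∧ ¬ T A (κ j) ∧
      ∀ j', valid (n, j') = true → ¬ T A (κ j') → j' = j := by
    intro n
    by_cases h : n₀ ≤ n ∧ n ∈ A
    · obtain ⟨j, hj⟩ := h2 n h.1 h.2
      exact ⟨j, fun _ _ => hj⟩
    · exact ⟨default, fun h3 h4 => absurd ⟨h3, h4⟩ h⟩
  choose J hJ using hj
  set f : ℕ → ℕ := fun n => if n ∈ A then (if n < n₀ then 1 else Encodable.encode (J n) + 1) else 0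
    with hf
  have hf0 : ∀ n, f n ≠ 0 ↔ n ∈ A := by
    intro n
    simp only [hf]
    split_ifs <;> simp_all
  have hgr : ∀ n m, Nat.pair n m ∈ Graph f ↔ f n = m := by
    intro n m
    constructor
    · rintro ⟨n', h⟩
      have h3 := Nat.pair_eq_pair.1 h
      rw [h3.1, ← h3.2]
    · rintro rfl
      exact ⟨n, rfl⟩
  refine ⟨f, ?_, ?_⟩
  · -- the complement of the graph is enumerated from `A`
    refine ered_of_sig (P := fun z B =>
      (z.unpair.1 < n₀ ∧ ((z.unpair.1 ∈ l ∧ z.unpair.2 ≠ 1) ∨
        (¬ z.unpair.1 ∈ l ∧ z.unpair.2 ≠ 0))) ∨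
      (n₀ ≤ z.unpair.1 ∧ z.unpair.2 = 0 ∧ z.unpair.1 ∈ B) ∨
      (n₀ ≤ z.unpair.1 ∧ z.unpair.2 ≠ 0 ∧
        (Encodable.decode (α := γ) (z.unpair.2 - 1)).isSome = false) ∨
      (n₀ ≤ z.unpair.1 ∧ z.unpair.2 ≠ 0 ∧ ∃ j : γ,
        Encodable.decode (α := γ) (z.unpair.2 - 1) = some j ∧
        (Encodable.encode j ≠ z.unpair.2 - 1 ∨ valid (z.unpair.1, j) = false ∨ T B (κ j)))) ?_ A _ ?_
    · have hu1 : Computable fun z : ℕ => z.unpair.1 := by fun_prop
      have hu2 : Computable fun z : ℕ => z.unpair.2 := by fun_prop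
      have hle : REPred fun z : ℕ => n₀ ≤ z.unpair.1 := RE.le (by fun_prop) hu1
      have hne : REPred fun z : ℕ => z.unpair.2 ≠ 0 := RE.ne hu2 (by fun_prop)
      refine sig_or (sig_re (RE.and (RE.lt hu1 (by fun_prop)) (RE.or
        (RE.and (RE.mem_list hu1 (by fun_prop)) (RE.ne hu2 (by fun_prop)))
        (RE.and (RE.not_mem_list hu1 (by fun_prop)) hne)))) ?_
      refine sig_or (sig_and (sig_re hle) (sig_and (sig_re (RE.eq hu2 (by fun_prop)))
        (sig_mem hu1))) ?_
      refine sig_or (sig_re (RE.and hle (RE.and hne (RE.eq (by fun_prop) (by fun_prop))))) ?_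
      refine sig_and (sig_re hle) (sig_and (sig_re hne) ?_)
      refine sig_ex (P := fun (z : ℕ) (j : γ) B =>
        Encodable.decode (α := γ) (z.unpair.2 - 1) = some j ∧
        (Encodable.encode j ≠ z.unpair.2 - 1 ∨ valid (z.unpair.1, j) = false ∨ T B (κ j))) ?_
      refine sig_and (sig_re (RE.eq (by fun_prop) (by fun_prop))) ?_
      refine sig_or (sig_re (RE.ne (by fun_prop) (by fun_prop))) (sig_or (sig_re (RE.eq ?_ ?_)) ?_)
      · exact hv.comp (f := valid) (g := fun x : ℕ × γ => (x.1.unpair.1, x.2)) (by fun_prop)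
      · fun_prop
      · exact sig_comp sig_T (hκ.comp Computable.snd)
    · intro z
      obtain ⟨n, m, rfl⟩ : ∃ n m, z = Nat.pair n m := ⟨z.unpair.1, z.unpair.2, by simp⟩
      simp only [Nat.unpair_pair]
      rw [Set.mem_compl_iff, hgr]
      by_cases hn : n < n₀
      · have h3 : ¬ n₀ ≤ n := by omega
        simp only [hn, true_and, h3, false_and, or_false]
        rw [hl n hn]
        simp only [hf, if_pos hn]
        by_cases hA : n ∈ A
        · simp only [hA, if_true, true_and, not_true, false_and, or_false]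
          exact ⟨fun h h' => h h'.symm, fun h h' => h h'.symm⟩
        · simp only [hA, if_false, false_and, not_false_iff, true_and, false_or]
          exact ⟨fun h h' => h h'.symm, fun h h' => h h'.symm⟩
      · have h3 : n₀ ≤ n := not_lt.1 hn
        simp only [hn, false_and, h3, true_and, false_or]
        by_cases hA : n ∈ A
        · simp only [hf, hA, if_true, if_neg hn, and_true]
          obtain ⟨hJ1, hJ2, hJ3⟩ := hJ n h3 hA
          constructor
          · intro hne
            by_cases hm : m = 0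
            · exact Or.inl hm
            · right
              rcases hd : Encodable.decode (α := γ) (m - 1) with _ | j
              · left
                exact ⟨hm, by simp⟩
              · right
                refine ⟨hm, j, rfl, ?_⟩
                by_contra hcon
                push Not at hcon
                obtain ⟨h4, h5, h6⟩ := hcon
                have h7 := hJ3 j (by simpa using h5) h6
                apply hne
                rw [← h7, h4]
                omega
          · rintro (hm | ⟨hm, h4⟩ | ⟨hm, j, h4, h5⟩) heq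
            · omega
            · have h6 : m - 1 = Encodable.encode (J n) := by omega
              rw [h6, Encodable.encodek] at h4
              simp at h4
            · have h6 : m - 1 = Encodable.encode (J n) := by omega
              rw [h6, Encodable.encodek] at h4
              have h7 : J n = j := Option.some.inj h4
              rw [h6, ← h7] at h5
              rcases h5 with h5 | h5 | h5
              · exact h5 rfl
              · rw [hJ1] at h5
                simp at h5
              · exact hJ2 h5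
        · simp only [hf, hA, if_false, and_false, false_or]
          constructor
          · intro hne
            have hm : m ≠ 0 := fun h => hne h.symm
            rcases hd : Encodable.decode (α := γ) (m - 1) with _ | j
            · left
              exact ⟨hm, by simp⟩
            · right
              refine ⟨hm, j, rfl, ?_⟩
              by_contra hcon
              push Not at hcon
              obtain ⟨h4, h5, h6⟩ := hcon
              exact hA (h1 n h3 j (by simpa using h5) h6)
          · rintro (⟨hm, _⟩ | ⟨hm, _⟩) heq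
            · exact hm heq.symm
            · exact hm heq.symm
  · -- `A` is enumerated from the complement of the graph
    refine ered_of_comp (f := fun n => Nat.pair n 0) (by fun_prop) fun n => ?_
    rw [Set.mem_compl_iff, hgr, ← hf0]

/-! ### the history -/

/-- outcomes: cell, ring, boundary or not -/
abbrev Oc := Bool × ℕ × Bool

/-- the code of the open part after the choice of the cell -/
def qc (an mm : ℕ × ℕ → ℕ) (x : (ℕ × ℕ) × ℕ) (c : Bool) : ℕ := bif c then an (x.1.2, mm (0, x.2)) else x.1.2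

/-- the code of the complement of the closed part after the choice of the cell -/
def ec (oo mm : ℕ × ℕ → ℕ) (x : (ℕ × ℕ) × ℕ) (c : Bool) : ℕ := bif c then x.1.1 else oo (x.1.1, mm (0, x.2))

/-- the codes (`an`: and, `oo`: or, `mm (_, n)`: `n` is in the set, `tt`: true) -/
structure Cd (A : Set ℕ) where
  an : ℕ × ℕ → ℕ
  oo : ℕ × ℕ → ℕ
  mm : ℕ × ℕ → ℕ
  tt : ℕ
  bb : ℕ
  G : ℕ × ℕ → ℕ
  N : ℕ × ℕ → ℕ
  can : Computable an
  coo : Computable oo
  cmm : Computable mm
  cG : Computable G
  cN : Computable N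
  han : ∀ p q, T A (an (p, q)) ↔ T A p ∧ T A q
  hoo : ∀ p q, T A (oo (p, q)) ↔ T A p ∨ T A q
  hmm : ∀ p n, T A (mm (p, n)) ↔ n ∈ A
  htt : T A tt
  hbb : ¬ T A bb
  hG0 : ∀ q, ¬ T A (G (q, 0))
  hN0 : ∀ q, T A (N (q, 0))
  h1 : ∀ q k, ¬ (T A (G (q, k)) ∧ T A (N (q, k)))
  h2 : ∀ q k, T A (N (q, k)) ∨ T A (G (q, k + 1))
  h3 : ∀ q, T A q ↔ ∃ k, T A (G (q, k))

theorem exists_Cd {A : Set ℕ} (h : NS A) : Nonempty (Cd A) := by
  obtain ⟨G, N, cG, cN, hG0, hN0, h1, h2, h3⟩ := h
  obtain ⟨an, can, han⟩ := sig_code (P := fun (x : ℕ × ℕ) B => T B x.1 ∧ T B x.2)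
    (sig_and (sig_comp sig_T Computable.fst) (sig_comp sig_T Computable.snd))
  obtain ⟨oo, coo, hoo⟩ := sig_code (P := fun (x : ℕ × ℕ) B => T B x.1 ∨ T B x.2)
    (sig_or (sig_comp sig_T Computable.fst) (sig_comp sig_T Computable.snd))
  obtain ⟨mm, cmm, hmm⟩ := sig_code (P := fun (x : ℕ × ℕ) B => x.2 ∈ B)
    (sig_mem Computable.snd)
  obtain ⟨tt, -, htt⟩ := sig_code (P := fun (_ : ℕ) (_ : Set ℕ) => True)
    (sig_re (RE.const True))
  obtain ⟨bb, -, hbb⟩ := sig_code (P := fun (_ : ℕ) (_ : Set ℕ) => False)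
    (sig_re (RE.const False))
  exact ⟨⟨an, oo, mm, tt 0, bb 0, G, N, can, coo, cmm, cG, cN, fun p q => han (p, q) A,
    fun p q => hoo (p, q) A, fun p q => hmm (p, q) A, (htt 0 A).2 trivial,
    fun h => (hbb 0 A).1 h, hG0, hN0, h1, h2, h3⟩⟩

namespace Cd

variable {A : Set ℕ} (d : Cd A)

theorem Gmono {q k : ℕ} (h : T A (d.G (q, k))) : T A (d.G (q, k + 1)) := by
  rcases d.h2 q k with h' | h'
  · exact absurd ⟨h, h'⟩ (d.h1 q k)
  · exact h'

theorem Gmono' {q k l : ℕ} (hkl : k ≤ l) (h : T A (d.G (q, k))) : T A (d.G (q, l)) := by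
  induction l, hkl using Nat.le_induction with
  | base => exact h
  | succ l _ ih => exact d.Gmono ih

theorem Nanti {q k : ℕ} (h : T A (d.N (q, k + 1))) : T A (d.N (q, k)) := by
  rcases d.h2 q k with h' | h'
  · exact h'
  · exact absurd ⟨h', h⟩ (d.h1 q (k + 1))

theorem Nanti' {q k l : ℕ} (hkl : k ≤ l) (h : T A (d.N (q, l))) : T A (d.N (q, k)) := by
  induction l, hkl using Nat.le_induction with
  | base => exact h
  | succ l _ ih => exact ih (d.Nanti h)

/-- open part after the choice of the cell -/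
def q (x : (ℕ × ℕ) × ℕ) (c : Bool) : ℕ := bif c then d.an (x.1.2, d.mm (0, x.2)) else x.1.2

/-- complement of the closed part after the choice of the cell -/
def e (x : (ℕ × ℕ) × ℕ) (c : Bool) : ℕ := bif c then x.1.1 else d.oo (x.1.1, d.mm (0, x.2))

/-- the next state: complement of the closed part, open part, stage -/
def stp (x : (ℕ × ℕ) × ℕ) (o : Oc) : (ℕ × ℕ) × ℕ :=
  (bif o.2.2 then
    (d.oo (d.e x o.1, d.oo (d.N (d.q x o.1, o.2.1), d.G (d.q x o.1, o.2.1))), d.tt)
  else
    (d.e x o.1, d.an (d.G (d.q x o.1, o.2.1 + 1), d.N (d.q x o.1, o.2.1))), x.2 + 1)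

/-- state after a list of outcomes -/
def st (σ : List Oc) : (ℕ × ℕ) × ℕ := σ.foldl d.stp ((d.bb, d.tt), 0)

theorem st_nil : d.st [] = ((d.bb, d.tt), 0) := rfl

theorem st_append (σ : List Oc) (o : Oc) : d.st (σ ++ [o]) = d.stp (d.st σ) o := by
  simp [st, List.foldl_append]

theorem st_snd (σ : List Oc) : (d.st σ).2 = σ.length := by
  induction σ using List.reverseRecOn with
  | nil => rfl
  | append_singleton σ o ih =>
    rw [st_append]
    simp [stp, ih]

/-- the set `A` is in the part of the state -/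
def InY (σ : List Oc) : Prop := ¬ T A (d.st σ).1.1 ∧ T A (d.st σ).1.2

/-- the complement of the closed hull of the ring -/
def hull (x : List Oc × Oc) : ℕ :=
  d.oo (d.e (d.st x.1) x.2.1,
    d.oo (d.N (d.q (d.st x.1) x.2.1, x.2.2.1 + 1), d.G (d.q (d.st x.1) x.2.1, x.2.2.1)))

theorem comp_q : Computable fun x : ((ℕ × ℕ) × ℕ) × Bool => d.q x.1 x.2 := by
  have h1 := d.can
  have h2 := d.cmm
  unfold q
  fun_prop

theorem comp_e : Computable fun x : ((ℕ × ℕ) × ℕ) × Bool => d.e x.1 x.2 := by
  have h1 := d.coo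
  have h2 := d.cmm
  unfold e
  fun_prop

theorem comp_stp : Computable fun x : ((ℕ × ℕ) × ℕ) × Oc => d.stp x.1 x.2 := by
  have h1 := d.coo
  have h2 := d.can
  have h3 := d.cG
  have h4 := d.cN
  have h5 : Computable fun x : ((ℕ × ℕ) × ℕ) × Oc => d.q x.1 x.2.1 :=
    d.comp_q.comp (f := fun x : ((ℕ × ℕ) × ℕ) × Bool => d.q x.1 x.2)
      (g := fun x : ((ℕ × ℕ) × ℕ) × Oc => (x.1, x.2.1)) (by fun_prop)
  have h6 : Computable fun x : ((ℕ × ℕ) × ℕ) × Oc => d.e x.1 x.2.1 :=
    d.comp_e.comp (f := fun x : ((ℕ × ℕ) × ℕ) × Bool => d.e x.1 x.2)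
      (g := fun x : ((ℕ × ℕ) × ℕ) × Oc => (x.1, x.2.1)) (by fun_prop)
  unfold stp
  fun_prop

theorem comp_st : Computable d.st := by
  have h : Computable fun σ : List Oc => σ.foldl (fun s o => d.stp s o) ((d.bb, d.tt), 0) := by
    refine RE.list_foldl (f := fun σ : List Oc => σ) (g := fun _ => ((d.bb, d.tt), 0))
      (h := fun _ y => d.stp y.1 y.2) Computable.id (Computable.const _) ?_
    exact d.comp_stp.comp (f := fun x : ((ℕ × ℕ) × ℕ) × Oc => d.stp x.1 x.2)
      (g := fun x : List Oc × (((ℕ × ℕ) × ℕ) × Oc) => x.2) (by fun_prop)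
  exact h

theorem comp_hull : Computable d.hull := by
  have h1 := d.coo
  have h3 := d.cG
  have h4 := d.cN
  have h0 := d.comp_st
  have h5 : Computable fun x : List Oc × Oc => d.q (d.st x.1) x.2.1 :=
    d.comp_q.comp (f := fun x : ((ℕ × ℕ) × ℕ) × Bool => d.q x.1 x.2)
      (g := fun x : List Oc × Oc => (d.st x.1, x.2.1)) (by fun_prop)
  have h6 : Computable fun x : List Oc × Oc => d.e (d.st x.1) x.2.1 :=
    d.comp_e.comp (f := fun x : ((ℕ × ℕ) × ℕ) × Bool => d.e x.1 x.2)
      (g := fun x : List Oc × Oc => (d.st x.1, x.2.1)) (by fun_prop)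
  unfold hull
  fun_prop

/-! #### semantics -/

theorem T_q (x : (ℕ × ℕ) × ℕ) (c : Bool) :
    T A (d.q x c) ↔ T A x.1.2 ∧ (c = true → x.2 ∈ A) := by
  cases c
  · simp [q]
  · simp [q, d.han, d.hmm]

theorem T_e (x : (ℕ × ℕ) × ℕ) (c : Bool) :
    T A (d.e x c) ↔ T A x.1.1 ∨ (c = false ∧ x.2 ∈ A) := by
  cases c
  · simp [e, d.hoo, d.hmm]
  · simp [e]

/-- the parts in which `A` is determine the cell and the ring -/
def Spec (σ : List Oc) (o : Oc) : Prop :=
  (o.1 = true ↔ σ.length ∈ A) ∧ ¬ T A (d.G (d.q (d.st σ) o.1, o.2.1)) ∧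
    T A (d.G (d.q (d.st σ) o.1, o.2.1 + 1)) ∧
    (o.2.2 = true ↔ ¬ T A (d.N (d.q (d.st σ) o.1, o.2.1)))

theorem InY_append (σ : List Oc) (o : Oc) : d.InY (σ ++ [o]) ↔ d.InY σ ∧ d.Spec σ o := by
  obtain ⟨c, k, b⟩ := o
  unfold InY Spec
  rw [st_append]
  have hq := d.T_q (d.st σ) c
  have he := d.T_e (d.st σ) c
  rw [st_snd] at hq he
  have h1 := d.h1 (d.q (d.st σ) c) k
  have h2 := d.h2 (d.q (d.st σ) c) k
  have h1' := d.h1 (d.q (d.st σ) c) (k + 1)
  have h3 : T A (d.G (d.q (d.st σ) c, k + 1)) → T A (d.q (d.st σ) c) := fun h =>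
    (d.h3 _).2 ⟨_, h⟩
  cases b
  · simp only [stp, cond_false, d.han, Bool.false_eq_true, false_iff, not_not]
    rw [he]
    constructor
    · rintro ⟨h4, h5, h6⟩
      have h7 := hq.1 (h3 h5)
      refine ⟨⟨fun h => h4 (Or.inl h), h7.1⟩, ⟨h7.2, fun h => ?_⟩, fun h => h1 ⟨h, h6⟩, h5, h6⟩
      by_contra hc
      have hc' : c = false := by simpa using hc
      exact h4 (Or.inr ⟨hc', h⟩)
    · rintro ⟨⟨h4, h5⟩, h6, h7, h8, h9⟩
      refine ⟨?_, h8, h9⟩
      rintro (h | ⟨h, h'⟩)
      · exact h4 h
      · have := h6.2 h'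
        rw [h] at this
        simp at this
  · simp only [stp, cond_true, d.hoo, true_iff]
    rw [he]
    constructor
    · rintro ⟨h4, h5⟩
      push Not at h4
      obtain ⟨⟨h6, h7⟩, h8, h9⟩ := h4
      have h10 : T A (d.G (d.q (d.st σ) c, k + 1)) := h2.resolve_left h8
      have h11 := hq.1 (h3 h10)
      refine ⟨⟨h6, h11.1⟩, ⟨h11.2, fun h => ?_⟩, h9, h10, h8⟩
      by_contra hc
      have hc' : c = false := by simpa using hc
      exact h7 hc' h
    · rintro ⟨⟨h4, h5⟩, h6, h7, h8, h9⟩
      refine ⟨?_, d.htt⟩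
      push Not
      refine ⟨⟨h4, fun h h' => ?_⟩, h9, h7⟩
      have := h6.2 h'
      rw [h] at this
      simp at this

theorem Spec_unique {σ : List Oc} {o o' : Oc} (h : d.Spec σ o) (h' : d.Spec σ o') : o = o' := by
  obtain ⟨c, k, b⟩ := o
  obtain ⟨c', k', b'⟩ := o'
  obtain ⟨h1, h2, h3, h4⟩ := h
  obtain ⟨h1', h2', h3', h4'⟩ := h'
  simp only at h1 h2 h3 h4 h1' h2' h3' h4'
  have hc : c = c' := by
    rw [Bool.eq_iff_iff, h1, h1']
  subst hc
  have hk : k = k' := by
    by_contra hne
    rcases Nat.lt_or_gt_of_ne hne with h | h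
    · exact h2' (d.Gmono' h h3)
    · exact h2 (d.Gmono' h h3')
  subst hk
  have hb : b = b' := by
    rw [Bool.eq_iff_iff, h4, h4']
  rw [hb]

open Classical in
theorem exists_next {σ : List Oc} (h : d.InY σ) : ∃ o, d.InY (σ ++ [o]) := by
  set c : Bool := decide (σ.length ∈ A) with hc
  have hq : T A (d.q (d.st σ) c) := by
    rw [T_q, st_snd]
    exact ⟨h.2, fun h' => by simpa [hc] using h'⟩
  obtain ⟨k, hk⟩ := (d.h3 _).1 hq
  have hex : ∃ k, T A (d.G (d.q (d.st σ) c, k)) := ⟨k, hk⟩
  set m := Nat.find hex with hm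
  have hm1 : T A (d.G (d.q (d.st σ) c, m)) := Nat.find_spec hex
  have hm0 : m ≠ 0 := by
    intro h0
    rw [h0] at hm1
    exact d.hG0 _ hm1
  obtain ⟨k', hk'⟩ := Nat.exists_eq_succ_of_ne_zero hm0
  refine ⟨(c, k', decide (¬ T A (d.N (d.q (d.st σ) c, k')))), ?_⟩
  rw [InY_append]
  refine ⟨h, by simp [hc], ?_, ?_, by simp⟩
  · have hlt : k' < m := by omega
    exact Nat.find_min hex hlt
  · simp only
    rw [← Nat.succ_eq_add_one, ← hk']
    exact hm1

theorem exists_hist : ∃ h : ℕ → List Oc, h 0 = [] ∧ (∀ n, ∃ o, h (n + 1) = h n ++ [o]) ∧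
    ∀ n, d.InY (h n) := by
  have h0 : d.InY [] := by
    rw [InY, st_nil]
    exact ⟨d.hbb, d.htt⟩
  have hn : ∀ σ : {σ // d.InY σ}, ∃ τ : {σ // d.InY σ}, ∃ o, τ.1 = σ.1 ++ [o] := by
    intro σ
    obtain ⟨o, ho⟩ := d.exists_next σ.2
    exact ⟨⟨_, ho⟩, o, rfl⟩
  choose F hF using hn
  let H : ℕ → {σ // d.InY σ} := fun n => Nat.rec (⟨[], h0⟩ : {σ // d.InY σ}) (fun _ σ => F σ) n
  exact ⟨fun n => (H n).1, rfl, fun n => hF (H n), fun n => (H n).2⟩

end Cd

/-- entry of a list of outcomes -/
def gt (σ : List Oc) (i : ℕ) : Oc := σ.getD i (false, 0, false)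

theorem comp_gt {α : Type} [Primcodable α] {f : α → List Oc} {g : α → ℕ} (hf : Computable f)
    (hg : Computable g) : Computable fun x => gt (f x) (g x) := by
  have h : Computable₂ fun (σ : List Oc) (i : ℕ) => σ.getD i (false, 0, false) :=
    (Primrec.list_getD (false, 0, false)).to_comp
  exact h.comp hf hg

/-- `σ` ends with the first boundary at a stage `≥ n`, and the cell at stage `n` is the one of the
sets containing `n` -/
def vl (x : ℕ × List Oc) : Bool :=
  decide (x.1 < x.2.length) && ((gt x.2 (x.2.length - 1)).2.2 && ((gt x.2 x.1).1 &&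
    RE.allB (fun i => decide (i < x.1) || (decide (x.2.length ≤ i + 1) || !(gt x.2 i).2.2))
      x.2.length))

theorem vl_iff {n : ℕ} {σ : List Oc} : vl (n, σ) = true ↔ n < σ.length ∧
    (gt σ (σ.length - 1)).2.2 = true ∧ (gt σ n).1 = true ∧
    ∀ i, n ≤ i → i + 1 < σ.length → (gt σ i).2.2 = false := by
  simp only [vl, Bool.and_eq_true, decide_eq_true_eq, RE.allB_iff, Bool.or_eq_true,
    Bool.not_eq_true']
  constructor
  · rintro ⟨h1, h2, h3, h4⟩
    refine ⟨h1, h2, h3, fun i hi hi' => ?_⟩
    rcases h4 i (by omega) with h | h | h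
    · omega
    · omega
    · exact h
  · rintro ⟨h1, h2, h3, h4⟩
    refine ⟨h1, h2, h3, fun i hi => ?_⟩
    by_cases h5 : i < n
    · exact Or.inl h5
    · by_cases h6 : σ.length ≤ i + 1
      · exact Or.inr (Or.inl h6)
      · exact Or.inr (Or.inr (h4 i (by omega) (by omega)))

theorem comp_vl : Computable vl := by
  have h1 : Computable fun x : ℕ × List Oc => decide (x.1 < x.2.length) :=
    RE.cdecide (RE.cp_lt (by fun_prop) (by fun_prop))
  have h2 : Computable fun x : ℕ × List Oc => gt x.2 (x.2.length - 1) :=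
    comp_gt (by fun_prop) (by fun_prop)
  have h3 : Computable fun x : ℕ × List Oc => gt x.2 x.1 :=
    comp_gt (by fun_prop) (by fun_prop)
  have h4 : Computable fun x : ℕ × List Oc =>
      RE.allB (fun i => decide (i < x.1) || (decide (x.2.length ≤ i + 1) || !(gt x.2 i).2.2))
        x.2.length := by
    refine RE.computable_allB (q := fun (x : ℕ × List Oc) i =>
      decide (i < x.1) || (decide (x.2.length ≤ i + 1) || !(gt x.2 i).2.2))
      (f := fun x => x.2.length) ?_ (by fun_prop)
    have g1 : Computable fun y : (ℕ × List Oc) × ℕ => decide (y.2 < y.1.1) :=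
      RE.cdecide (RE.cp_lt (by fun_prop) (by fun_prop))
    have g2 : Computable fun y : (ℕ × List Oc) × ℕ => decide (y.1.2.length ≤ y.2 + 1) :=
      RE.cdecide (RE.cp_le (by fun_prop) (by fun_prop))
    have g3 : Computable fun y : (ℕ × List Oc) × ℕ => gt y.1.2 y.2 :=
      comp_gt (by fun_prop) (by fun_prop)
    unfold Computable₂
    fun_prop
  unfold vl
  fun_prop

theorem s_hist : S_hist := by
  intro A hA
  obtain ⟨d⟩ := exists_Cd hA
  obtain ⟨h, h0, hs, hY⟩ := d.exists_hist
  choose o ho using hs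
  have hlen : ∀ n, (h n).length = n := by
    intro n
    induction n with
    | zero => rw [h0]; rfl
    | succ n ih => rw [ho, List.length_append, ih]; rfl
  have huniq : ∀ σ, d.InY σ → σ = h σ.length := by
    intro σ
    induction σ using List.reverseRecOn with
    | nil => intro _; rw [List.length_nil, h0]
    | append_singleton σ a ih =>
      intro hσ
      obtain ⟨h1, h2⟩ := (d.InY_append σ a).1 hσ
      have h3 := ih h1
      have h4 := hY (σ.length + 1)
      rw [ho, ← h3] at h4
      have h5 := d.Spec_unique h2 ((d.InY_append _ _).1 h4).2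
      rw [List.length_append, List.length_singleton, ho, ← h3, ← h5]
  have hspec : ∀ n, d.Spec (h n) (o n) := fun n => by
    have := hY (n + 1)
    rw [ho] at this
    exact ((d.InY_append _ _).1 this).2
  by_cases hcase : ∃ n₀, ∀ n ≥ n₀, (o n).2.2 = false
  · -- finitely many boundaries
    obtain ⟨n₀, hn₀⟩ := hcase
    have key : ∀ n ≥ n₀, ∀ (σ : List Oc) (a : Oc), σ.length = n → a.2.2 = false →
        ¬ T A (d.hull (σ, a)) → σ = h n ∧ a = o n := by
      intro n hn σ a hσ ha hT
      obtain ⟨c, k, b⟩ := a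
      simp only at ha
      subst ha
      simp only [Cd.hull, d.hoo, d.T_e, d.st_snd] at hT
      push Not at hT
      obtain ⟨⟨h1, h2⟩, h3, h4⟩ := hT
      have h5 : T A (d.G (d.q (d.st σ) c, k + 2)) := (d.h2 _ (k + 1)).resolve_left h3
      have h6 : T A (d.q (d.st σ) c) := (d.h3 _).2 ⟨_, h5⟩
      have h7 := (d.T_q _ _).1 h6
      rw [d.st_snd] at h7
      have hσh : σ = h n := by
        rw [← hσ]
        exact huniq σ ⟨h1, h7.1⟩
      refine ⟨hσh, ?_⟩
      have h8 := hspec n
      rw [← hσh] at h8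
      obtain ⟨g1, g2, g3, g4⟩ := h8
      have hc : c = (o n).1 := by
        rw [Bool.eq_iff_iff, g1]
        constructor
        · exact h7.2
        · intro h'
          by_contra hcon
          exact h2 (by simpa using hcon) h'
      rw [hn₀ n hn] at g4
      simp only [Bool.false_eq_true, false_iff, not_not] at g4
      rw [← hc] at g2 g3 g4
      have hk : k = (o n).2.1 := by
        by_contra hne
        rcases Nat.lt_or_gt_of_ne hne with hlt | hlt
        · exact h3 (d.Nanti' hlt g4)
        · exact h4 (d.Gmono' hlt g3)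
      rw [hc, hk, ← hn₀ n hn]
    refine gl (γ := List Oc × Oc) A
      (fun x => decide (x.2.1.length = x.1) && (x.2.2.1 && !x.2.2.2.2)) ?_ d.hull d.comp_hull n₀
      ?_ ?_
    · have : Computable fun x : ℕ × (List Oc × Oc) => decide (x.2.1.length = x.1) :=
        RE.cdecide (RE.cp_eq (by fun_prop) (by fun_prop))
      fun_prop
    · intro n hn x hx hT
      simp only [Bool.and_eq_true, decide_eq_true_eq, Bool.not_eq_true'] at hx
      obtain ⟨h1, h2⟩ := key n hn x.1 x.2 hx.1 hx.2.2 hT
      have h3 := (hspec n).1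
      rw [hlen, ← h2] at h3
      exact h3.1 hx.2.1
    · intro n hn hnA
      refine ⟨(h n, o n), ?_, ?_, ?_⟩
      · simp only [Bool.and_eq_true, decide_eq_true_eq, Bool.not_eq_true']
        refine ⟨hlen n, ?_, hn₀ n hn⟩
        have h3 := (hspec n).1
        rw [hlen] at h3
        exact h3.2 hnA
      · obtain ⟨g1, g2, g3, g4⟩ := hspec n
        rw [hn₀ n hn] at g4
        simp only [Bool.false_eq_true, false_iff, not_not] at g4
        have g5 := hY n
        simp only [Cd.hull, d.hoo, d.T_e, d.st_snd]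
        push Not
        refine ⟨⟨g5.1, fun h' h'' => ?_⟩, fun h' => d.h1 _ _ ⟨g3, h'⟩, g2⟩
        rw [g1.2 h''] at h'
        simp at h'
      · intro x hx hT
        simp only [Bool.and_eq_true, decide_eq_true_eq, Bool.not_eq_true'] at hx
        obtain ⟨h1, h2⟩ := key n hn x.1 x.2 hx.1 hx.2.2 hT
        exact Prod.ext h1 h2
  · -- infinitely many boundaries
    push Not at hcase
    have hcase' : ∀ n, ∃ t, n ≤ t ∧ (o t).2.2 = true := by
      intro n
      obtain ⟨t, ht, ht'⟩ := hcase n
      exact ⟨t, ht, by simpa using ht'⟩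
    have hget : ∀ m i, i < m → gt (h m) i = o i := by
      intro m
      induction m with
      | zero => intro i hi; omega
      | succ m ih =>
        intro i hi
        rw [ho, gt, List.getD_eq_getElem?_getD, List.getElem?_append]
        rw [hlen]
        by_cases him : i < m
        · rw [if_pos him]
          have := ih i him
          rw [gt, List.getD_eq_getElem?_getD] at this
          exact this
        · have : i = m := by omega
          subst this
          simp
    have key : ∀ n σ, vl (n, σ) = true → ¬ T A ((d.st σ).1.1) →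
        σ = h σ.length ∧ n < σ.length ∧ (o (σ.length - 1)).2.2 = true ∧ (o n).1 = true ∧
          ∀ i, n ≤ i → i + 1 < σ.length → (o i).2.2 = false := by
      intro n σ hv hT
      obtain ⟨g1, g2, g3, g4⟩ := vl_iff.1 hv
      have hσ : σ = h σ.length := by
        apply huniq
        refine ⟨hT, ?_⟩
        induction σ using List.reverseRecOn with
        | nil => simp at g1
        | append_singleton σ' a _ =>
          rw [gt, List.getD_eq_getElem?_getD, List.getElem?_append] at g2
          simp at g2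
          rw [d.st_append, Cd.stp, g2]
          exact d.htt
      have hge : ∀ i, i < σ.length → gt σ i = o i := by
        intro i hi
        rw [hσ]
        exact hget σ.length i hi
      refine ⟨hσ, g1, ?_, ?_, ?_⟩
      · rw [← hge _ (by omega)]; exact g2
      · rw [← hge _ g1]; exact g3
      · intro i hi hi'
        rw [← hge i (by omega)]
        exact g4 i hi hi'
    refine gl (γ := List Oc) A vl comp_vl (fun σ => (d.st σ).1.1) ?_ 0 ?_ ?_
    · have := d.comp_st
      fun_prop
    · intro n _ σ hv hT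
      obtain ⟨_, _, _, h4, _⟩ := key n σ hv hT
      have h3 := (hspec n).1
      rw [hlen] at h3
      exact h3.1 h4
    · intro n _ hnA
      classical
      have hex : ∃ t, n ≤ t ∧ (o t).2.2 = true := hcase' n
      set t := Nat.find hex with ht
      obtain ⟨ht1, ht2⟩ := Nat.find_spec hex
      rw [← ht] at ht1 ht2
      have hmin : ∀ i, n ≤ i → i < t → (o i).2.2 = false := by
        intro i hi hit
        have := Nat.find_min hex hit
        push Not at this
        simpa using this hi
      refine ⟨h (t + 1), ?_, ?_, ?_⟩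
      · rw [vl_iff, hlen]
        refine ⟨by omega, ?_, ?_, ?_⟩
        · rw [Nat.add_sub_cancel, hget _ _ (Nat.lt_succ_self t)]
          exact ht2
        · rw [hget _ _ (by omega)]
          have h3 := (hspec n).1
          rw [hlen] at h3
          exact h3.2 hnA
        · intro i hi hi'
          rw [hget _ _ (by omega)]
          exact hmin i hi (by omega)
      · exact (hY (t + 1)).1
      · intro σ hv hT
        obtain ⟨k1, k2, k3, k4, k5⟩ := key n σ hv hT
        have h5 : σ.length = t + 1 := by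
          by_contra hne
          rcases Nat.lt_or_gt_of_ne hne with hlt | hlt
          · have := hmin (σ.length - 1) (by omega) (by omega)
            rw [k3] at this
            simp at this
          · have := k5 t ht1 hlt
            rw [ht2] at this
            simp at this
        rw [k1, h5]

end R624GT
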