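import Pool.Agent.R624.GT.Lib

/-!
Effective normality: a regular structure gives a normal structure.
-/

set_option autoImplicit false

namespace R624GT

open Pool.Agent.R624.EDeg
open Pool.Agent.Helper446

/-- decoding of an index -/
def ix (i : ℕ) : ℕ × ℕ × List ℕ := Denumerable.ofNat (ℕ × ℕ × List ℕ) i

theorem ix_comp : Computable ix := Computable.ofNat _

/-- the value of `κ` at `j` -/
def kv (i j : ℕ) : ℕ := (ix i).2.2.getD j 0

theorem kv_comp : Computable fun p : ℕ × ℕ => kv p.1 p.2 := by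
  have h0 : Computable fun p : ℕ × ℕ => ix p.1 := ix_comp.comp Computable.fst
  have h3 : Computable fun p : ℕ × ℕ × List ℕ => p.2.2 := Computable.snd.comp Computable.snd
  have h1 : Computable fun p : ℕ × ℕ => (ix p.1).2.2 :=
    h3.comp (f := fun p : ℕ × ℕ × List ℕ => p.2.2) (g := fun p : ℕ × ℕ => ix p.1) h0
  have h2 : Computable fun p : List ℕ × ℕ => p.1.getD p.2 0 :=
    (Primrec.list_getD 0).to_comp
  exact h2.comp (f := fun p : List ℕ × ℕ => p.1.getD p.2 0)
    (g := fun p : ℕ × ℕ => ((ix p.1).2.2, p.2)) (h1.pair Computable.snd)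

theorem bits_ix_comp : Computable fun i => bits (ix i).2.1 := by
  have h1 : Computable fun i => (ix i).2.1 :=
    (Computable.fst.comp Computable.snd).comp ix_comp
  exact cbits.comp h1

theorem wst_ix_comp : Computable fun x : ℕ × ℕ => RE.wst ℕ x.1 (ix x.2).1 (ix x.2).2.1 := by
  have h0 : Computable fun x : ℕ × ℕ => ix x.2 := ix_comp.comp Computable.snd
  have h1 : Computable fun x : ℕ × ℕ => (ix x.2).2.1 :=
    (Computable.fst.comp Computable.snd).comp h0
  have h2 : Computable fun x : ℕ × ℕ => (ix x.2).1 := Computable.fst.comp h0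
  exact RE.wst_comp.comp (f := fun p : (ℕ × ℕ) × ℕ => RE.wst ℕ p.1.1 p.1.2 p.2)
    (g := fun x : ℕ × ℕ => ((x.1, (ix x.2).1), (ix x.2).2.1))
    ((Computable.fst.pair h2).pair h1)

/-- a witness for the truth of a code -/
def OO (O : ℕ × ℕ → Set ℕ → Prop) (x : ℕ × ℕ) (A : Set ℕ) : Prop :=
  RE.wst ℕ x.1 (ix x.2).1 (ix x.2).2.1 = true ∧ ∀ j ∈ bits (ix x.2).2.1, O (j, kv x.2 j) A

/-- the witness fails -/
def MM (N : ℕ × ℕ → Set ℕ → Prop) (x : ℕ × ℕ) (A : Set ℕ) : Prop :=
  RE.wst ℕ x.1 (ix x.2).1 (ix x.2).2.1 = false ∨ ∃ j ∈ bits (ix x.2).2.1, N (j, kv x.2 j) A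

theorem pair_comp : Computable fun y : (ℕ × ℕ) × ℕ => (y.2, kv y.1.2 y.2) := by
  have h1 : Computable fun y : (ℕ × ℕ) × ℕ => kv y.1.2 y.2 :=
    kv_comp.comp (f := fun p : ℕ × ℕ => kv p.1 p.2) (g := fun y : (ℕ × ℕ) × ℕ => (y.1.2, y.2))
      ((Computable.snd.comp Computable.fst).pair Computable.snd)
  exact Computable.snd.pair h1

theorem sig_OO {O : ℕ × ℕ → Set ℕ → Prop} (hO : Sig O) : Sig (OO O) := by
  refine sig_and (sig_re (RE.of_bool wst_ix_comp)) ?_
  exact sig_all_mem (P := fun (x : ℕ × ℕ) (j : ℕ) A => O (j, kv x.2 j) A)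
    (l := fun x => bits (ix x.2).2.1) (sig_comp hO pair_comp)
    (bits_ix_comp.comp Computable.snd)

theorem sig_MM {N : ℕ × ℕ → Set ℕ → Prop} (hN : Sig N) : Sig (MM N) := by
  refine sig_or (sig_re ?_) ?_
  · have h : Computable fun x : ℕ × ℕ => !(RE.wst ℕ x.1 (ix x.2).1 (ix x.2).2.1) :=
      Primrec.not.to_comp.comp wst_ix_comp
    exact (RE.of_bool h).of_eq fun x => by simp
  · exact sig_ex_mem (P := fun (x : ℕ × ℕ) (j : ℕ) A => N (j, kv x.2 j) A)
      (l := fun x => bits (ix x.2).2.1) (sig_comp hN pair_comp)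
      (bits_ix_comp.comp Computable.snd)

section facts

variable {A : Set ℕ} {O N : ℕ × ℕ → Set ℕ → Prop}

theorem OO_MM (h1 : ∀ n k, ¬ (O (n, k) A ∧ N (n, k) A)) {x : ℕ × ℕ} (h2 : OO O x A)
    (h3 : MM N x A) : False := by
  rcases h3 with h3 | ⟨j, hj, h3⟩
  · have := h2.1
    rw [h3] at this
    exact Bool.false_ne_true this
  · exact h1 _ _ ⟨h2.2 j hj, h3⟩

theorem MM_of_not (h1 : ∀ n k, n ∉ A → N (n, k) A) {q : ℕ} (hq : ¬ T A q) (i : ℕ) :
    MM N (q, i) A := by
  by_cases h : RE.wst ℕ q (ix i).1 (ix i).2.1 = true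
  · right
    by_contra hc
    refine hq ⟨(ix i).2.1, ⟨_, h⟩, ?_⟩
    intro j hj
    by_contra hjA
    exact hc ⟨j, mem_bits.2 hj, h1 _ _ hjA⟩
  · left
    simpa using h

theorem T_iff (h1 : ∀ n, n ∈ A ↔ ∃ k, O (n, k) A) (q : ℕ) :
    T A q ↔ ∃ i, OO O (q, i) A := by
  constructor
  · rintro ⟨u, ⟨s, hs⟩, hD⟩
    have hf : ∀ j, ∃ k, j ∈ A → O (j, k) A := by
      intro j
      by_cases hj : j ∈ A
      · obtain ⟨k, hk⟩ := (h1 j).1 hj
        exact ⟨k, fun _ => hk⟩
      · exact ⟨0, fun h => absurd h hj⟩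
    choose f hf using hf
    refine ⟨Encodable.encode (s, u, (List.range u).map f), ?_⟩
    have hix : ix (Encodable.encode (s, u, (List.range u).map f)) =
        (s, u, (List.range u).map f) := Denumerable.ofNat_encode _
    refine ⟨?_, ?_⟩
    · show RE.wst ℕ q (ix _).1 (ix _).2.1 = true
      rw [hix]
      exact hs
    · intro j hj
      have hj' : j ∈ bits u := by
        have : (ix (q, Encodable.encode (s, u, (List.range u).map f)).2).2.1 = u := by
          rw [hix]
        rwa [this] at hj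
      have hju : j < u := by
        have := List.mem_filter.1 hj'
        exact List.mem_range.1 this.1
      have hkv : kv (q, Encodable.encode (s, u, (List.range u).map f)).2 j = f j := by
        unfold kv
        rw [hix]
        simp [List.getD_eq_getElem?_getD, hju]
      rw [hkv]
      exact hf j (hD (mem_bits.1 hj'))
  · rintro ⟨i, h2, h3⟩
    refine ⟨(ix i).2.1, ⟨_, h2⟩, ?_⟩
    intro j hj
    exact (h1 j).2 ⟨_, h3 j (mem_bits.2 hj)⟩

end facts

theorem s_norm : S_norm := by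
  rintro A ⟨O, N, hO, hN, hd, hN', hO'⟩
  have sO := sig_OO hO
  have sM := sig_MM hN
  -- the code of `T n ∧ M' (q, i)`, as a function of `((q, i), n)`
  obtain ⟨c1, hc1, tc1⟩ := sig_code (P := fun (x : (ℕ × ℕ) × ℕ) B => T B x.2 ∧ MM N x.1 B)
    (sig_and (sig_comp sig_T Computable.snd) (sig_comp sM Computable.fst))
  -- the code of `∃ j, O' (a, j) ∧ ∀ l ≤ j, M' (b, l)`
  have hs : Sig fun (x : ℕ × ℕ) B =>
      ∃ j, OO O (x.1, j) B ∧ ∀ l ∈ List.range (j + 1), MM N (x.2, l) B := by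
    refine sig_ex (P := fun (x : ℕ × ℕ) (j : ℕ) B =>
      OO O (x.1, j) B ∧ ∀ l ∈ List.range (j + 1), MM N (x.2, l) B) ?_
    refine sig_and ?_ ?_
    · exact sig_comp sO (f := fun y : (ℕ × ℕ) × ℕ => (y.1.1, y.2))
        ((Computable.fst.comp Computable.fst).pair Computable.snd)
    · refine sig_all_mem (P := fun (y : (ℕ × ℕ) × ℕ) (l : ℕ) B => MM N (y.1.2, l) B)
        (l := fun y => List.range (y.2 + 1)) ?_ ?_
      · exact sig_comp sM (f := fun z : ((ℕ × ℕ) × ℕ) × ℕ => (z.1.1.2, z.2))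
          ((Computable.snd.comp (Computable.fst.comp Computable.fst)).pair Computable.snd)
      · exact Primrec.list_range.to_comp.comp (Computable.succ.comp Computable.snd)
  obtain ⟨gg, hgg, tgg⟩ := sig_code hs
  obtain ⟨ct, hct, tct⟩ := sig_code (P := fun (_ : ℕ) (_ : Set ℕ) => True)
    (sig_re ((RE.of_bool (f := fun _ : ℕ => true) (Computable.const true)).of_eq
      fun _ => by simp))
  obtain ⟨cf, hcf, tcf⟩ := sig_code (P := fun (_ : ℕ) (_ : Set ℕ) => False)
    (sig_re ((RE.of_bool (f := fun _ : ℕ => false) (Computable.const false)).of_eq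
      fun _ => by simp))
  -- the recursion
  let Nf : ℕ → ℕ → ℕ := fun q k =>
    Nat.rec (motive := fun _ => ℕ) (ct 0) (fun k n => gg (c1 ((q, k), n), q)) k
  have hNf : Computable fun x : ℕ × ℕ => Nf x.1 x.2 := by
    refine Computable.nat_rec (f := fun x : ℕ × ℕ => x.2) (g := fun _ => ct 0)
      (h := fun (x : ℕ × ℕ) (y : ℕ × ℕ) => gg (c1 ((x.1, y.1), y.2), x.1))
      Computable.snd (Computable.const _) ?_
    refine hgg.comp (f := gg) (g := fun z : (ℕ × ℕ) × (ℕ × ℕ) =>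
      (c1 ((z.1.1, z.2.1), z.2.2), z.1.1)) ?_
    refine Computable.pair ?_ (Computable.fst.comp Computable.fst)
    refine hc1.comp (f := c1) (g := fun z : (ℕ × ℕ) × (ℕ × ℕ) => ((z.1.1, z.2.1), z.2.2)) ?_
    exact ((Computable.fst.comp Computable.fst).pair (Computable.fst.comp Computable.snd)).pair
      (Computable.snd.comp Computable.snd)
  have Nf0 : ∀ q, Nf q 0 = ct 0 := fun _ => rfl
  have NfS : ∀ q k, Nf q (k + 1) = gg (c1 ((q, k), Nf q k), q) := fun _ _ => rfl
  let Gf : ℕ → ℕ → ℕ := fun q k =>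
    Nat.casesOn (motive := fun _ => ℕ) k (cf 0) fun k => gg (q, c1 ((q, k), Nf q k))
  have hGf : Computable fun x : ℕ × ℕ => Gf x.1 x.2 := by
    refine Computable.nat_casesOn (f := fun x : ℕ × ℕ => x.2) (g := fun _ => cf 0)
      (h := fun (x : ℕ × ℕ) (k : ℕ) => gg (x.1, c1 ((x.1, k), Nf x.1 k)))
      Computable.snd (Computable.const _) ?_
    refine hgg.comp (f := gg) (g := fun z : (ℕ × ℕ) × ℕ =>
      (z.1.1, c1 ((z.1.1, z.2), Nf z.1.1 z.2))) ?_
    refine Computable.pair (Computable.fst.comp Computable.fst) ?_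
    refine hc1.comp (f := c1) (g := fun z : (ℕ × ℕ) × ℕ => ((z.1.1, z.2), Nf z.1.1 z.2)) ?_
    refine Computable.pair ((Computable.fst.comp Computable.fst).pair Computable.snd) ?_
    exact hNf.comp (f := fun x : ℕ × ℕ => Nf x.1 x.2) (g := fun z : (ℕ × ℕ) × ℕ => (z.1.1, z.2))
      ((Computable.fst.comp Computable.fst).pair Computable.snd)
  have Gf0 : ∀ q, Gf q 0 = cf 0 := fun _ => rfl
  have GfS : ∀ q k, Gf q (k + 1) = gg (q, c1 ((q, k), Nf q k)) := fun _ _ => rfl
  -- facts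
  have F2 : ∀ {q : ℕ}, ¬ T A q → ∀ i, MM N (q, i) A := fun hq i => MM_of_not hN' hq i
  have F3 : ∀ q, T A q ↔ ∃ i, OO O (q, i) A := T_iff hO'
  have NT : ∀ q k, T A (Nf q k) ∨ T A q := by
    intro q k
    induction k with
    | zero => left; rw [Nf0, tct]; trivial
    | succ k ih =>
      by_cases hq : T A q
      · exact Or.inr hq
      · left
        rw [NfS, tgg]
        have hn : T A (Nf q k) := ih.resolve_right hq
        have hn' : T A (c1 ((q, k), Nf q k)) := (tc1 _ _).2 ⟨hn, F2 hq k⟩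
        obtain ⟨j, hj⟩ := (F3 _).1 hn'
        exact ⟨j, hj, fun l _ => F2 hq l⟩
  -- if `n'` is false and `q` is true, then `G'` is true
  have key : ∀ q k, T A q → ¬ T A (c1 ((q, k), Nf q k)) → T A (Gf q (k + 1)) := by
    intro q k hq hn'
    rw [GfS, tgg]
    obtain ⟨j, hj⟩ := (F3 q).1 hq
    exact ⟨j, hj, fun l _ => F2 hn' l⟩
  refine ⟨fun x => Gf x.1 x.2, fun x => Nf x.1 x.2, hGf, hNf, ?_, ?_, ?_, ?_, ?_⟩
  · intro q
    show ¬ T A (Gf q 0)
    rw [Gf0, tcf]
    exact fun h => h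
  · intro q
    show T A (Nf q 0)
    rw [Nf0, tct]
    trivial
  · rintro q k ⟨h1, h2⟩
    replace h1 : T A (Gf q k) := h1
    replace h2 : T A (Nf q k) := h2
    cases k with
    | zero =>
      rw [Gf0, tcf] at h1
      exact h1
    | succ k =>
      rw [GfS, tgg] at h1
      rw [NfS, tgg] at h2
      obtain ⟨j, hj, hj2⟩ := h1
      obtain ⟨j', hj', hj2'⟩ := h2
      rcases le_total j' j with hle | hle
      · exact OO_MM hd hj' (hj2 j' (List.mem_range.2 (by omega)))
      · exact OO_MM hd hj (hj2' j (List.mem_range.2 (by omega)))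
  · intro q k
    show T A (Nf q k) ∨ T A (Gf q (k + 1))
    by_cases hn : T A (Nf q k)
    · exact Or.inl hn
    · right
      refine key q k ((NT q k).resolve_left hn) fun h => hn ((tc1 _ _).1 h).1
  · intro q
    constructor
    · intro hq
      obtain ⟨i, hi⟩ := (F3 q).1 hq
      refine ⟨i + 1, ?_⟩
      exact key q i hq fun h => OO_MM hd hi ((tc1 _ _).1 h).2
    · rintro ⟨k, hk⟩
      replace hk : T A (Gf q k) := hk
      cases k with
      | zero =>
        rw [Gf0, tcf] at hk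
        exact hk.elim
      | succ k =>
        rw [GfS, tgg] at hk
        obtain ⟨j, hj, -⟩ := hk
        exact (F3 q).2 ⟨j, hj⟩

end R624GT
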