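import Pool.Agent.R624.GT.Dens
import Pool.Agent.R624.GT.Norm
import Pool.Agent.R624.GT.Hist

/-!
Assembly: from sets to degrees.
-/

set_option autoImplicit false

namespace R624GT

open Pool.Agent.R624.EDeg
open Pool.Agent.Helper446
open Pool.Agent.Helper446.RE (cid cconst ccomp cfst csnd cpair cadd csub cmul cmin cmax csucc
  cappend ccons clength cgetElem cencode cdecode csome cisSome cnot cand cor cunpair cnatpair
  cmapsnd cmapfst ccond)

/-- The degree is total: it contains a set `A` with `Aᶜ ≤_e A`. -/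
def IsTotal (a : EDegree) : Prop := ∃ A : Set ℕ, ERed Aᶜ A ∧ a = deg A

/-- The degree is almost total: for every total degree `b`, either `b ≤ a` or the join of `a` and
`b` is total. -/
def IsAlmostTotal (a : EDegree) : Prop :=
  ∀ b : EDegree, IsTotal b → b ≤ a ∨ ∀ c, IsLUB {a, b} c → IsTotal c

/-- The degree is graph-cototal: it contains the complement of the graph of a function. -/
def IsGraphCototal (a : EDegree) : Prop := ∃ f : ℕ → ℕ, a = deg (Graph f)ᶜ

theorem mem_join_even {A B : Set ℕ} {n : ℕ} : 2 * n ∈ join A B ↔ n ∈ A := by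
  constructor
  · rintro (⟨m, hm, h⟩ | ⟨m, hm, h⟩)
    · have : n = m := by omega
      rw [this]; exact hm
    · omega
  · exact fun h => Or.inl ⟨n, h, rfl⟩

theorem mem_join_odd {A B : Set ℕ} {n : ℕ} : 2 * n + 1 ∈ join A B ↔ n ∈ B := by
  constructor
  · rintro (⟨m, hm, h⟩ | ⟨m, hm, h⟩)
    · omega
    · have : n = m := by omega
      rw [this]; exact hm
  · exact fun h => Or.inr ⟨n, h, rfl⟩

theorem ered_join_left (A B : Set ℕ) : ERed A (join A B) :=
  ered_of_comp (f := fun n => 2 * n) (by fun_prop) fun _ => mem_join_even.symm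

theorem ered_join_right (A B : Set ℕ) : ERed B (join A B) :=
  ered_of_comp (f := fun n => 2 * n + 1) (by fun_prop) fun _ => mem_join_odd.symm

theorem sig_of_ered {B A : Set ℕ} (h : ERed B A) :
    ∃ P : ℕ → Set ℕ → Prop, Sig P ∧ ∀ n, n ∈ B ↔ P n A := by
  obtain ⟨Ψ, hΨ, h⟩ := h
  refine ⟨fun n A => n ∈ app Ψ A, ⟨fun p => p ∈ Ψ, hΨ, fun _ _ => Iff.rfl⟩, fun n => ?_⟩
  rw [h]

theorem comp_half : Computable fun n : ℕ => n / 2 :=
  Primrec.nat_div.to_comp.comp Computable.id (Computable.const 2)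

theorem comp_mod : Computable fun n : ℕ => n % 2 :=
  Primrec.nat_mod.to_comp.comp Computable.id (Computable.const 2)

theorem ered_join {A B C : Set ℕ} (h1 : ERed A C) (h2 : ERed B C) : ERed (join A B) C := by
  obtain ⟨P, hP, hP'⟩ := sig_of_ered h1
  obtain ⟨Q, hQ, hQ'⟩ := sig_of_ered h2
  refine ered_of_sig (P := fun z C => (z % 2 = 0 ∧ P (z / 2) C) ∨ (z % 2 = 1 ∧ Q (z / 2) C)) ?_ C _
    ?_
  · have hh := comp_half
    have hm := comp_mod
    exact sig_or (sig_and (sig_re (RE.eq hm (by fun_prop))) (sig_comp hP hh))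
      (sig_and (sig_re (RE.eq hm (by fun_prop))) (sig_comp hQ hh))
  · intro z
    rcases Nat.mod_two_eq_zero_or_one z with hz | hz
    · have h3 : z = 2 * (z / 2) := by omega
      have h4 : ¬ z % 2 = 1 := by omega
      rw [← hP', ← hQ']
      simp only [hz, true_and, zero_ne_one, false_and, or_false]
      rw [← mem_join_even (A := A) (B := B), ← h3]
    · have h3 : z = 2 * (z / 2) + 1 := by omega
      rw [← hP', ← hQ']
      simp only [hz, true_and, one_ne_zero, false_and, false_or]
      rw [← mem_join_odd (A := A) (B := B), ← h3]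

theorem isLUB_join (A B : Set ℕ) : IsLUB {deg A, deg B} (deg (join A B)) := by
  constructor
  · rintro c (rfl | rfl)
    · exact deg_le.2 (ered_join_left A B)
    · exact deg_le.2 (ered_join_right A B)
  · intro c hc
    obtain ⟨C, rfl⟩ := deg_surj c
    exact deg_le.2 (ered_join (deg_le.1 (hc (Or.inl rfl))) (deg_le.1 (hc (Or.inr rfl))))

theorem isTotal_join (X : Set ℕ) : IsTotal (deg (join X Xᶜ)) := by
  refine ⟨join X Xᶜ, ?_, rfl⟩
  have h : (join X Xᶜ)ᶜ = join Xᶜ X := by
    ext z
    rcases Nat.mod_two_eq_zero_or_one z with hz | hz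
    · have h3 : z = 2 * (z / 2) := by omega
      rw [Set.mem_compl_iff, h3, mem_join_even, mem_join_even]
      rfl
    · have h3 : z = 2 * (z / 2) + 1 := by omega
      rw [Set.mem_compl_iff, h3, mem_join_odd, mem_join_odd, Set.mem_compl_iff, not_not]
  rw [h]
  exact ered_join (ered_join_right X Xᶜ) (ered_join_left X Xᶜ)

theorem at_of_almostTotal {A : Set ℕ} (h : IsAlmostTotal (deg A)) : AT A := by
  intro X
  rcases h _ (isTotal_join X) with h1 | h1
  · exact Or.inl (deg_le.1 h1)
  · right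
    obtain ⟨C, hC, hC'⟩ := h1 _ (isLUB_join A (join X Xᶜ))
    have h2 : ERed (join A (join X Xᶜ)) C := deg_le.1 hC'.le
    have h3 : ERed C (join A (join X Xᶜ)) := deg_le.1 hC'.ge
    exact ⟨C, ered_trans h2 (ered_join_left C Cᶜ),
      ered_trans (ered_join (ered_refl C) hC) h3⟩

theorem main (hrs : S_rs) (a : EDegree) (ha : IsAlmostTotal a) : IsGraphCototal a := by
  obtain ⟨A, rfl⟩ := deg_surj a
  obtain ⟨f, h1, h2⟩ := s_hist A (s_norm A (hrs s_dens A (at_of_almostTotal ha)))
  exact ⟨f, le_antisymm (deg_le.2 h2) (deg_le.2 h1)⟩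

end R624GT
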