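import Pool.Agent.R624.EDeg

/-!
Definitions and statements for MP_c7b1db_lc (project GT).
-/

set_option autoImplicit false

namespace R624GT

open Pool.Agent.R624.EDeg
open Pool.Agent.Helper446

/-- The graph of `f`. -/
def Graph (f : ℕ → ℕ) : Set ℕ := {z | ∃ n, z = Nat.pair n (f n)}

/-- almost total sets (only joins with total degrees are considered) -/
def AT (A : Set ℕ) : Prop :=
  ∀ X : Set ℕ, ERed (join X Xᶜ) A ∨
    ∃ C : Set ℕ, ERed (join A (join X Xᶜ)) (join C Cᶜ) ∧ ERed (join C Cᶜ) (join A (join X Xᶜ))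

/-- `P a A` is a `Σ⁰₁⟨A⟩` property, uniformly in `a` and `A` -/
def Sig {α : Type} [Primcodable α] (P : α → Set ℕ → Prop) : Prop :=
  ∃ R : α × ℕ → Prop, REPred R ∧ ∀ a A, P a A ↔ ∃ u, R (a, u) ∧ D u ⊆ A

/-- the code `q` of a `Σ⁰₁⟨A⟩` statement is true at `A` -/
def T (A : Set ℕ) (q : ℕ) : Prop := ∃ u, (∃ s, RE.wst ℕ q s u = true) ∧ D u ⊆ A

/-- regular structure at `A` -/
def RS (A : Set ℕ) : Prop :=
  ∃ O N : ℕ × ℕ → Set ℕ → Prop, Sig O ∧ Sig N ∧ (∀ n k, ¬ (O (n, k) A ∧ N (n, k) A)) ∧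
    (∀ n k, n ∉ A → N (n, k) A) ∧ ∀ n, n ∈ A ↔ ∃ k, O (n, k) A

/-- normal structure at `A` -/
def NS (A : Set ℕ) : Prop :=
  ∃ G N : ℕ × ℕ → ℕ, Computable G ∧ Computable N ∧ (∀ q, ¬ T A (G (q, 0))) ∧
    (∀ q, T A (N (q, 0))) ∧ (∀ q k, ¬ (T A (G (q, k)) ∧ T A (N (q, k)))) ∧
    (∀ q k, T A (N (q, k)) ∨ T A (G (q, k + 1))) ∧ ∀ q, T A q ↔ ∃ k, T A (G (q, k))

/-! ### measure -/

/-- initial segment -/
def pre (x : ℕ → Bool) (l : ℕ) : List Bool := (List.range l).map x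

/-- number of strings of length `l` extending `τ` and satisfying `Q` -/
noncomputable def cnt (τ : List Bool) (l : ℕ) (Q : List Bool → Prop) : ℕ :=
  {ρ : List Bool | ρ.length = l ∧ τ <+: ρ ∧ Q ρ}.ncard

/-- `S` has outer measure greater than `5/6` in the cylinder of `τ`; the two consequences which
are needed, stated by counting strings -/
def Big (S : Set (ℕ → Bool)) (τ : List Bool) : Prop :=
  (∀ l, τ.length ≤ l → ∀ Q : List Bool → Prop, 2 ^ l < 3 * 2 ^ τ.length * cnt τ l Q →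
    ∃ x ∈ S, τ <+: pre x l ∧ Q (pre x l)) ∧
  ∀ S' : ℕ → Set (ℕ → Bool), Monotone S' → S ∩ {x | pre x τ.length = τ} ⊆ ⋃ k, S' k →
    ∀ Q : ℕ → List Bool → Prop, (∀ k ρ ρ', ρ <+: ρ' → Q k ρ → Q k ρ') →
      (∀ k, ∀ x ∈ S' k, ∃ l, Q k (pre x l)) →
      ∃ k l, τ.length ≤ l ∧ 2 * 2 ^ l < 3 * 2 ^ τ.length * cnt τ l (Q k)

/-! ### statements -/

def S_dens : Prop := ∀ S : ℕ → Set (ℕ → Bool), ((⋃ i, S i)ᶜ).Countable → ∃ i τ, Big (S i) τ

def S_rs : Prop := S_dens → ∀ A, AT A → RS A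

def S_norm : Prop := ∀ A, RS A → NS A

def S_hist : Prop := ∀ A, NS A → ∃ f : ℕ → ℕ, ERed (Graph f)ᶜ A ∧ ERed A (Graph f)ᶜ

end R624GT
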