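import Pool.Agent.R624.GT.Defs

set_option autoImplicit false

open MeasureTheory Set
open scoped ENNReal

namespace R624GT

namespace DensAux

/-- the fair coin on `Bool` -/
noncomputable def coin : Measure Bool := (PMF.uniformOfFintype Bool).toMeasure

instance : IsProbabilityMeasure coin := by
  unfold coin
  infer_instance

theorem coin_singleton (b : Bool) : coin {b} = ENNReal.ofReal (1 / 2) := by
  unfold coin
  rw [PMF.toMeasure_apply_singleton _ _ (measurableSet_singleton b), PMF.uniformOfFintype_apply]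
  rw [one_div, ENNReal.ofReal_inv_of_pos (by norm_num)]
  simp

/-- the coin tossing measure -/
noncomputable def mu : Measure (ℕ → Bool) := Measure.infinitePi (fun _ => coin)

instance : IsProbabilityMeasure mu := by
  unfold mu
  infer_instance

theorem length_pre (x : ℕ → Bool) (l : ℕ) : (pre x l).length = l := by simp [pre]

theorem getElem_pre (x : ℕ → Bool) (l i : ℕ) (h : i < (pre x l).length) : (pre x l)[i] = x i := by
  simp [pre]

theorem pre_eq_iff (x : ℕ → Bool) (ρ : List Bool) :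
    pre x ρ.length = ρ ↔ ∀ i (h : i < ρ.length), x i = ρ[i] := by
  constructor
  · intro h i hi
    have h1 := getElem_pre x ρ.length i (by rw [length_pre]; exact hi)
    rw [← h1]
    congr 1
  · intro h
    apply List.ext_getElem (length_pre x _)
    intro i h1 h2
    rw [getElem_pre]
    exact h i h2

/-- the cylinder of `ρ` -/
def cyl (ρ : List Bool) : Set (ℕ → Bool) := {x | pre x ρ.length = ρ}

theorem mu_cyl (ρ : List Bool) : mu (cyl ρ) = ENNReal.ofReal ((1 / 2) ^ ρ.length) := by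
  have h : cyl ρ = Set.pi (Finset.range ρ.length) (fun i => {ρ.getD i false}) := by
    ext x
    have h1 : x ∈ cyl ρ ↔ pre x ρ.length = ρ := Iff.rfl
    rw [h1, pre_eq_iff, Set.mem_pi]
    constructor
    · intro h2 i hi
      have hi' : i < ρ.length := by simpa using hi
      rw [Set.mem_singleton_iff, h2 i hi', List.getD_eq_getElem _ _ hi']
    · intro h2 i hi
      have h3 := h2 i (by simpa using hi)
      rw [Set.mem_singleton_iff, List.getD_eq_getElem _ _ hi] at h3
      exact h3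
  rw [h, mu, Measure.infinitePi_pi _ (fun i _ => measurableSet_singleton _)]
  simp only [coin_singleton, Finset.prod_const, Finset.card_range]
  rw [ENNReal.ofReal_pow (by norm_num)]

theorem measurable_cyl (ρ : List Bool) : MeasurableSet (cyl ρ) := by
  have h : cyl ρ = ⋂ i : Fin ρ.length, {x : ℕ → Bool | x i = ρ[i]} := by
    ext x
    have h1 : x ∈ cyl ρ ↔ pre x ρ.length = ρ := Iff.rfl
    rw [h1, pre_eq_iff, Set.mem_iInter]
    constructor
    · intro h2 i
      exact h2 i.1 i.2
    · intro h2 i hi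
      exact h2 ⟨i, hi⟩
  rw [h]
  refine MeasurableSet.iInter fun i => ?_
  exact (measurable_pi_apply (i : ℕ)) (measurableSet_singleton _)

/-- the measure of a set which depends on the first `l` bits only -/
theorem mu_level (l : ℕ) (R : List Bool → Prop) :
    mu {x | R (pre x l)} = ENNReal.ofReal ({ρ : List Bool | ρ.length = l ∧ R ρ}.ncard * (1 / 2) ^ l) := by
  have hfin : {ρ : List Bool | ρ.length = l ∧ R ρ}.Finite :=
    (List.finite_length_eq Bool l).subset fun ρ h => h.1
  have h1 : {x | R (pre x l)} = ⋃ ρ ∈ hfin.toFinset, cyl ρ := by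
    ext x
    simp only [Set.mem_iUnion, Set.Finite.mem_toFinset]
    constructor
    · intro h
      refine ⟨pre x l, ⟨length_pre x l, h⟩, ?_⟩
      have h2 : pre x (pre x l).length = pre x l := by rw [length_pre]
      exact h2
    · rintro ⟨ρ, ⟨h2, h3⟩, h4⟩
      have h5 : pre x ρ.length = ρ := h4
      rw [h2] at h5
      have h6 : R (pre x l) := by rw [h5]; exact h3
      exact h6
  rw [h1, measure_biUnion_finset ?_ (fun ρ _ => measurable_cyl ρ)]
  · have h2 : ∀ ρ ∈ hfin.toFinset, mu (cyl ρ) = ENNReal.ofReal ((1 / 2) ^ l) := by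
      intro ρ hρ
      rw [Set.Finite.mem_toFinset] at hρ
      rw [mu_cyl, hρ.1]
    rw [Finset.sum_congr rfl h2, Finset.sum_const, Set.ncard_eq_toFinset_card _ hfin,
      nsmul_eq_mul, ENNReal.ofReal_mul (Nat.cast_nonneg _), ENNReal.ofReal_natCast]
  · intro ρ hρ ρ' hρ' hne
    rw [Function.onFun, Set.disjoint_left]
    intro x hx hx'
    apply hne
    have e1 : pre x ρ.length = ρ := hx
    have e2 : pre x ρ'.length = ρ' := hx'
    have e3 : ρ.length = l := ((Set.Finite.mem_toFinset hfin).1 hρ).1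
    have e4 : ρ'.length = l := ((Set.Finite.mem_toFinset hfin).1 hρ').1
    rw [e3] at e1
    rw [e4] at e2
    rw [← e1, ← e2]

theorem pre_prefix (x : ℕ → Bool) {l l' : ℕ} (h : l ≤ l') : pre x l <+: pre x l' := by
  have h1 : pre x l = (pre x l').take l := by
    apply List.ext_getElem
    · simp [length_pre, h]
    · intro i h1 h2
      rw [getElem_pre, List.getElem_take, getElem_pre]
  rw [h1]
  exact List.take_prefix _ _

theorem prefix_pre_iff (x : ℕ → Bool) (τ : List Bool) {l : ℕ} (h : τ.length ≤ l) :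
    τ <+: pre x l ↔ x ∈ cyl τ := by
  have h0 : x ∈ cyl τ ↔ pre x τ.length = τ := Iff.rfl
  rw [h0]
  constructor
  · intro h1
    have h2 := pre_prefix x h
    have h3 : pre x τ.length <+: τ := List.prefix_of_prefix_length_le h2 h1 (by rw [length_pre])
    exact h3.eq_of_length (by rw [length_pre])
  · intro h1
    rw [← h1]
    have := pre_prefix x h
    rwa [h1] at this ⊢

theorem mem_cyl_pre (x y : ℕ → Bool) (l : ℕ) : y ∈ cyl (pre x l) ↔ ∀ i < l, y i = x i := by
  have h1 : y ∈ cyl (pre x l) ↔ pre y (pre x l).length = pre x l := Iff.rfl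
  rw [h1, pre_eq_iff]
  constructor
  · intro h i hi
    have h2 := h i (by rw [length_pre]; exact hi)
    rwa [getElem_pre] at h2
  · intro h i hi
    rw [getElem_pre]
    exact h i (by rwa [length_pre] at hi)

theorem mu_le_cyl (S : Set (ℕ → Bool)) (l : ℕ) (R : List Bool → Prop) (c : ℝ) (hc : 0 ≤ c)
    (h : ∀ ρ : List Bool, ρ.length = l → mu (S ∩ cyl ρ) ≤ ENNReal.ofReal (c * (1 / 2) ^ l)) :
    mu (S ∩ {x | R (pre x l)}) ≤ ENNReal.ofReal c * mu {x | R (pre x l)} := by
  have hfin : {ρ : List Bool | ρ.length = l ∧ R ρ}.Finite :=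
    (List.finite_length_eq Bool l).subset fun ρ h => h.1
  have h1 : S ∩ {x | R (pre x l)} ⊆ ⋃ ρ ∈ hfin.toFinset, S ∩ cyl ρ := by
    rintro x ⟨hx, hx'⟩
    simp only [Set.mem_iUnion, Set.Finite.mem_toFinset]
    refine ⟨pre x l, ⟨length_pre x l, hx'⟩, hx, ?_⟩
    have h2 : pre x (pre x l).length = pre x l := by rw [length_pre]
    exact h2
  calc mu (S ∩ {x | R (pre x l)}) ≤ mu (⋃ ρ ∈ hfin.toFinset, S ∩ cyl ρ) := measure_mono h1
    _ ≤ ∑ ρ ∈ hfin.toFinset, mu (S ∩ cyl ρ) := measure_biUnion_finset_le _ _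
    _ ≤ ∑ ρ ∈ hfin.toFinset, ENNReal.ofReal (c * (1 / 2) ^ l) := by
        refine Finset.sum_le_sum fun ρ hρ => h ρ ?_
        exact ((Set.Finite.mem_toFinset hfin).1 hρ).1
    _ = ENNReal.ofReal c * mu {x | R (pre x l)} := by
        rw [mu_level, Finset.sum_const, nsmul_eq_mul, Set.ncard_eq_toFinset_card _ hfin,
          ENNReal.ofReal_mul hc, ENNReal.ofReal_mul (Nat.cast_nonneg _), ENNReal.ofReal_natCast]
        ring

theorem exists_dense (S : Set (ℕ → Bool)) (hS : 0 < mu S) :
    ∃ τ : List Bool, ENNReal.ofReal (5 / 6 * (1 / 2) ^ τ.length) < mu (S ∩ cyl τ) := by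
  by_contra hcon
  push Not at hcon
  have hfin : mu S ≠ ⊤ := measure_ne_top _ _
  have hlt : mu S < ENNReal.ofReal (6 / 5) * mu S := by
    have h1 : ENNReal.ofReal 1 < ENNReal.ofReal (6 / 5) :=
      (ENNReal.ofReal_lt_ofReal_iff (by norm_num)).2 (by norm_num)
    rw [ENNReal.ofReal_one] at h1
    calc mu S = 1 * mu S := (one_mul _).symm
      _ < ENNReal.ofReal (6 / 5) * mu S := (ENNReal.mul_lt_mul_iff_left hS.ne' hfin).2 h1
  obtain ⟨U, hSU, hU, hmU⟩ := Set.exists_isOpen_lt_of_lt S _ hlt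
  set R : List Bool → Prop := fun ρ => cyl ρ ⊆ U with hR
  have hmono : Monotone fun l : ℕ => S ∩ {x | R (pre x l)} := by
    intro l l' hl x hx
    refine ⟨hx.1, ?_⟩
    have h1 : cyl (pre x l) ⊆ U := hx.2
    have h2 : cyl (pre x l') ⊆ U := by
      refine subset_trans ?_ h1
      intro y hy
      rw [mem_cyl_pre] at hy ⊢
      exact fun i hi => hy i (lt_of_lt_of_le hi hl)
    exact h2
  have hunion : S = ⋃ l : ℕ, S ∩ {x | R (pre x l)} := by
    apply subset_antisymm
    · intro x hx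
      obtain ⟨I, u, h1, h2⟩ := isOpen_pi_iff.1 hU x (hSU hx)
      rw [Set.mem_iUnion]
      refine ⟨I.sup id + 1, hx, ?_⟩
      have h3 : cyl (pre x (I.sup id + 1)) ⊆ U := by
        refine subset_trans ?_ h2
        intro y hy
        rw [mem_cyl_pre] at hy
        intro i hi
        have h4 : i ≤ I.sup id := Finset.le_sup (f := id) hi
        rw [hy i (by omega)]
        exact (h1 i hi).2
      exact h3
    · exact Set.iUnion_subset fun l => Set.inter_subset_left
  have h1 : mu S ≤ ENNReal.ofReal (5 / 6) * mu U := by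
    rw [hunion, hmono.measure_iUnion]
    refine iSup_le fun l => ?_
    refine (mu_le_cyl S l R (5 / 6) (by norm_num) ?_).trans ?_
    · intro ρ hρ
      have := hcon ρ
      rwa [hρ] at this
    · gcongr
      intro x hx
      have h3 : cyl (pre x l) ⊆ U := hx
      apply h3
      rw [mem_cyl_pre]
      exact fun _ _ => rfl
  have h2 : ENNReal.ofReal (5 / 6) * mu U < mu S := by
    calc ENNReal.ofReal (5 / 6) * mu U
        < ENNReal.ofReal (5 / 6) * (ENNReal.ofReal (6 / 5) * mu S) := by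
          refine (ENNReal.mul_lt_mul_iff_right ?_ ENNReal.ofReal_ne_top).2 hmU
          exact (ENNReal.ofReal_pos.2 (by norm_num)).ne'
      _ = mu S := by
          rw [← mul_assoc, ← ENNReal.ofReal_mul (by norm_num)]
          norm_num
  exact absurd h1 (not_le.2 h2)

theorem level_cnt (τ : List Bool) (l : ℕ) (Q : List Bool → Prop) (h : τ.length ≤ l) :
    mu (cyl τ ∩ {x | Q (pre x l)}) = ENNReal.ofReal (cnt τ l Q * (1 / 2) ^ l) := by
  have h1 : cyl τ ∩ {x | Q (pre x l)} = {x | (fun ρ => τ <+: ρ ∧ Q ρ) (pre x l)} := by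
    ext x
    constructor
    · rintro ⟨h2, h3⟩
      exact ⟨(prefix_pre_iff x τ h).2 h2, h3⟩
    · rintro ⟨h2, h3⟩
      exact ⟨(prefix_pre_iff x τ h).1 h2, h3⟩
  rw [h1]
  exact mu_level l (fun ρ => τ <+: ρ ∧ Q ρ)

theorem big_of_dense (S : Set (ℕ → Bool)) (τ : List Bool)
    (hτ : ENNReal.ofReal (5 / 6 * (1 / 2) ^ τ.length) < mu (S ∩ cyl τ)) : Big S τ := by
  have hpos : (0 : ℝ) < (1 / 2) ^ τ.length := by positivity
  refine ⟨?_, ?_⟩
  · intro l hl Q hQ
    by_contra hcon
    push Not at hcon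
    have hms : MeasurableSet {x : ℕ → Bool | Q (pre x l)} := by
      have hfin : {ρ : List Bool | ρ.length = l ∧ Q ρ}.Finite :=
        (List.finite_length_eq Bool l).subset fun ρ h => h.1
      have h1 : {x | Q (pre x l)} = ⋃ ρ ∈ hfin.toFinset, cyl ρ := by
        ext x
        simp only [Set.mem_iUnion, Set.Finite.mem_toFinset]
        constructor
        · intro h
          refine ⟨pre x l, ⟨length_pre x l, h⟩, ?_⟩
          have h2 : pre x (pre x l).length = pre x l := by rw [length_pre]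
          exact h2
        · rintro ⟨ρ, ⟨h2, h3⟩, h4⟩
          have h5 : pre x ρ.length = ρ := h4
          rw [h2] at h5
          have h6 : Q (pre x l) := by rw [h5]; exact h3
          exact h6
      rw [h1]
      exact Finset.measurableSet_biUnion _ fun ρ _ => measurable_cyl ρ
    have h1 : S ∩ cyl τ ⊆ cyl τ \ {x | Q (pre x l)} := by
      rintro x ⟨hx, hx'⟩
      refine ⟨hx', fun hq => ?_⟩
      exact hcon x hx ((prefix_pre_iff x τ hl).2 hx') hq
    have h2 : mu (cyl τ ∩ {x | Q (pre x l)}) + mu (cyl τ \ {x | Q (pre x l)}) = mu (cyl τ) :=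
      measure_inter_add_sdiff _ hms
    have h3 : mu (cyl τ ∩ {x | Q (pre x l)}) + mu (S ∩ cyl τ) ≤ mu (cyl τ) := by
      rw [← h2]
      gcongr
    rw [level_cnt τ l Q hl, mu_cyl] at h3
    have h4 : ENNReal.ofReal (cnt τ l Q * (1 / 2) ^ l) + ENNReal.ofReal (5 / 6 * (1 / 2) ^ τ.length)
        ≤ ENNReal.ofReal ((1 / 2) ^ τ.length) :=
      (add_le_add le_rfl hτ.le).trans h3
    rw [← ENNReal.ofReal_add (by positivity) (by positivity),
      ENNReal.ofReal_le_ofReal_iff (by positivity)] at h4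
    have h5 : ((2 : ℝ) ^ l) < 3 * 2 ^ τ.length * cnt τ l Q := by exact_mod_cast hQ
    have h6 : (cnt τ l Q : ℝ) * (1 / 2) ^ l ≤ 1 / 6 * (1 / 2) ^ τ.length := by linarith
    rw [one_div, inv_pow, inv_pow, ← div_eq_mul_inv, div_le_iff₀ (by positivity)] at h6
    have h7 : (cnt τ l Q : ℝ) * (6 * 2 ^ τ.length) ≤ 2 ^ l := by
      calc (cnt τ l Q : ℝ) * (6 * 2 ^ τ.length)
          ≤ (1 / 6 * (2 ^ τ.length)⁻¹ * 2 ^ l) * (6 * 2 ^ τ.length) := by gcongr
        _ = 2 ^ l := by field_simp
    have h8 : (0 : ℝ) ≤ 2 ^ τ.length * cnt τ l Q := by positivity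
    nlinarith
  · intro S' hS' hsub Q hQ hQ'
    have h1 : mu (S ∩ cyl τ) ≤ mu (⋃ k, S' k ∩ cyl τ) := by
      refine measure_mono ?_
      intro x hx
      have h2 := hsub hx
      rw [Set.mem_iUnion] at h2 ⊢
      obtain ⟨k, hk⟩ := h2
      exact ⟨k, hk, hx.2⟩
    have hmono : Monotone fun k => S' k ∩ cyl τ := fun k k' hk x hx => ⟨hS' hk hx.1, hx.2⟩
    rw [hmono.measure_iUnion] at h1
    obtain ⟨k, hk⟩ := lt_iSup_iff.1 (lt_of_lt_of_le hτ h1)
    have h2 : S' k ∩ cyl τ ⊆ ⋃ l, cyl τ ∩ {x | Q k (pre x l)} := by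
      rintro x ⟨hx, hx'⟩
      obtain ⟨l, hl⟩ := hQ' k x hx
      exact Set.mem_iUnion.2 ⟨l, hx', hl⟩
    have hmono2 : Monotone fun l => cyl τ ∩ {x | Q k (pre x l)} := by
      intro l l' hl x hx
      have h3 : Q k (pre x l) := hx.2
      have h4 : Q k (pre x l') := hQ k _ _ (pre_prefix x hl) h3
      exact ⟨hx.1, h4⟩
    have h3 : ENNReal.ofReal (5 / 6 * (1 / 2) ^ τ.length) < mu (⋃ l, cyl τ ∩ {x | Q k (pre x l)}) :=
      lt_of_lt_of_le hk (measure_mono h2)
    rw [hmono2.measure_iUnion] at h3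
    obtain ⟨l, hl⟩ := lt_iSup_iff.1 h3
    refine ⟨k, max l τ.length, le_max_right _ _, ?_⟩
    have h4 : ENNReal.ofReal (5 / 6 * (1 / 2) ^ τ.length) <
        mu (cyl τ ∩ {x | Q k (pre x (max l τ.length))}) :=
      lt_of_lt_of_le hl (measure_mono (hmono2 (le_max_left _ _)))
    rw [level_cnt τ _ (Q k) (le_max_right _ _)] at h4
    generalize max l τ.length = L at h4
    have h5 : 5 / 6 * (1 / 2) ^ τ.length < (cnt τ L (Q k) : ℝ) * (1 / 2) ^ L := by
      rw [ENNReal.ofReal_lt_ofReal_iff_of_nonneg (by positivity)] at h4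
      exact h4
    rw [one_div, inv_pow, inv_pow, ← div_eq_mul_inv (cnt τ L (Q k) : ℝ), lt_div_iff₀ (by positivity)] at h5
    have h6 : 5 * (2 : ℝ) ^ L < 6 * 2 ^ τ.length * cnt τ L (Q k) := by
      calc 5 * (2 : ℝ) ^ L = (5 / 6 * (2 ^ τ.length)⁻¹ * 2 ^ L) * (6 * 2 ^ τ.length) := by
            field_simp
        _ < cnt τ L (Q k) * (6 * 2 ^ τ.length) := by gcongr
        _ = _ := by ring
    have h7 : (2 : ℝ) * 2 ^ L < 3 * 2 ^ τ.length * cnt τ L (Q k) := by
      have : (0 : ℝ) < 2 ^ L := by positivity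
      nlinarith
    exact_mod_cast h7

theorem countable_null (A : Set (ℕ → Bool)) (hA : A.Countable) : mu A = 0 := by
  have h1 : ∀ x : ℕ → Bool, mu {x} = 0 := by
    intro x
    have h2 : ∀ l : ℕ, mu {x} ≤ ENNReal.ofReal ((1 / 2) ^ l) := by
      intro l
      have h3 := mu_cyl (pre x l)
      rw [length_pre] at h3
      rw [← h3]
      refine measure_mono ?_
      intro y hy
      rw [Set.mem_singleton_iff.1 hy, mem_cyl_pre]
      exact fun _ _ => rfl
    have h3 : Filter.Tendsto (fun l : ℕ => ENNReal.ofReal ((1 / 2 : ℝ) ^ l)) Filter.atTop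
        (nhds (ENNReal.ofReal 0)) :=
      (ENNReal.continuous_ofReal.tendsto 0).comp
        (tendsto_pow_atTop_nhds_zero_of_lt_one (by norm_num) (by norm_num))
    rw [ENNReal.ofReal_zero] at h3
    exact le_antisymm (ge_of_tendsto' h3 h2) bot_le
  rw [← Set.biUnion_of_singleton A]
  exact (measure_biUnion_null_iff hA).2 fun x _ => h1 x

end DensAux

open DensAux in
theorem s_dens : S_dens := by
  intro S hS
  have h1 : ∃ i, 0 < mu (S i) := by
    by_contra hcon
    push Not at hcon
    have h2 : mu univ = 0 := by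
      have h3 : (univ : Set (ℕ → Bool)) ⊆ (⋃ i, S i) ∪ (⋃ i, S i)ᶜ := by
        rw [Set.union_compl_self]
      have h4 : mu (⋃ i, S i) = 0 :=
        measure_iUnion_null fun i => le_antisymm (hcon i) bot_le
      refine le_antisymm ((measure_mono h3).trans ?_) bot_le
      refine (measure_union_le _ _).trans ?_
      rw [h4, countable_null _ hS, add_zero]
    rw [measure_univ] at h2
    exact one_ne_zero h2
  obtain ⟨i, hi⟩ := h1
  obtain ⟨τ, hτ⟩ := exists_dense (S i) hi
  exact ⟨i, τ, big_of_dense (S i) τ hτ⟩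

end R624GT
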