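import Pool.Agent.R624.GT.Defs

/-!
Closure properties of uniformly `Σ⁰₁⟨A⟩` properties.
-/

set_option autoImplicit false

namespace R624GT

open Pool.Agent.R624.EDeg
open Pool.Agent.Helper446
open Pool.Agent.Helper446.RE (cid cconst ccomp cfst csnd cpair cadd csub cmul cmin cmax csucc
  cappend ccons clength cgetElem cencode cdecode csome cisSome cnot cand cor cunpair cnatpair
  cmapsnd cmapfst ccond)

variable {α β : Type} [Primcodable α] [Primcodable β]

/-- canonical index of the union -/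
theorem D_or (u v : ℕ) : D (u ||| v) = D u ∪ D v := by
  ext i
  simp [D, Nat.testBit_or]

theorem D_zero : D 0 = ∅ := by
  ext i; simp [D]

theorem exists_index_sub {A : Set ℕ} (l : List ℕ) (h : ∀ i ∈ l, i ∈ A) :
    ∃ w, D w ⊆ A ∧ ∀ i ∈ l, i ∈ D w := by
  obtain ⟨w, hw⟩ := exists_index l
  exact ⟨w, fun i hi => h i ((hw i).1 hi), fun i hi => (hw i).2 hi⟩

/-- inclusion of finite sets is c.e. -/
theorem re_sub {f g : α → ℕ} (hf : Computable f) (hg : Computable g) :
    REPred fun a => D (f a) ⊆ D (g a) := by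
  have h : REPred fun a => ∀ i ∈ bits (f a), i ∈ bits (g a) := by
    refine RE.all_mem (p := fun (a : α) (i : ℕ) => i ∈ bits (g a)) (l := fun a => bits (f a)) ?_
      (cbits.comp hf)
    exact RE.mem_list (f := fun x : α × ℕ => x.2) (l := fun x => bits (g x.1)) (by fun_prop)
      (cbits.comp (hg.comp Computable.fst))
  refine h.of_eq fun a => ?_
  constructor
  · intro h i hi
    exact mem_bits.1 (h i (mem_bits.2 hi))
  · intro h i hi
    exact mem_bits.2 (h (mem_bits.1 hi))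

/-- one may take upward closed axioms -/
theorem sig_of_re {P : α → Set ℕ → Prop} (R : α × ℕ → Prop) (hR : REPred R)
    (h : ∀ a A, P a A ↔ ∃ u, R (a, u) ∧ D u ⊆ A) : Sig P := ⟨R, hR, h⟩

theorem Sig.mono {P : α → Set ℕ → Prop} (hP : Sig P) {a : α} {A B : Set ℕ} (h : A ⊆ B)
    (hA : P a A) : P a B := by
  obtain ⟨R, -, hR⟩ := hP
  obtain ⟨u, hu, hD⟩ := (hR a A).1 hA
  exact (hR a B).2 ⟨u, hu, hD.trans h⟩

/-- finite use -/
theorem Sig.use {P : α → Set ℕ → Prop} (hP : Sig P) {a : α} {A : Set ℕ} (hA : P a A) :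
    ∃ u, D u ⊆ A ∧ P a (D u) := by
  obtain ⟨R, -, hR⟩ := hP
  obtain ⟨u, hu, hD⟩ := (hR a A).1 hA
  exact ⟨u, hD, (hR a _).2 ⟨u, hu, subset_rfl⟩⟩

/-- the properties of finite sets are c.e. -/
theorem Sig.re {P : α → Set ℕ → Prop} (hP : Sig P) : REPred fun x : α × ℕ => P x.1 (D x.2) := by
  obtain ⟨R, hR', hR⟩ := hP
  have h : REPred fun x : α × ℕ => ∃ u, R (x.1, u) ∧ D u ⊆ D x.2 := by
    refine RE.exN (p := fun (x : α × ℕ) (u : ℕ) => R (x.1, u) ∧ D u ⊆ D x.2) ?_
    exact RE.and (RE.comp hR' (f := fun y : (α × ℕ) × ℕ => (y.1.1, y.2)) (by fun_prop))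
      (re_sub (by fun_prop) (by fun_prop))
  exact h.of_eq fun x => (hR x.1 (D x.2)).symm

/-- characterization: monotone, finite use, c.e. on finite sets -/
theorem sig_of {P : α → Set ℕ → Prop} (hre : REPred fun x : α × ℕ => P x.1 (D x.2))
    (hmono : ∀ a A B, A ⊆ B → P a A → P a B) (huse : ∀ a A, P a A → ∃ u, D u ⊆ A ∧ P a (D u)) :
    Sig P := by
  refine ⟨fun x => P x.1 (D x.2), hre, fun a A => ⟨fun h => ?_, ?_⟩⟩
  · obtain ⟨u, h1, h2⟩ := huse a A h
    exact ⟨u, h2, h1⟩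
  · rintro ⟨u, h1, h2⟩
    exact hmono a _ _ h2 h1

theorem sig_re {p : α → Prop} (hp : REPred p) : Sig fun a (_ : Set ℕ) => p a := by
  refine sig_of (RE.comp hp (f := fun x : α × ℕ => x.1) (by fun_prop)) (fun _ _ _ _ h => h)
    fun a A h => ⟨0, by rw [D_zero]; exact Set.empty_subset _, h⟩

theorem sig_mem {f : α → ℕ} (hf : Computable f) : Sig fun a (A : Set ℕ) => f a ∈ A := by
  refine sig_of ?_ (fun _ _ _ h h' => h h') fun a A h =>
    ⟨2 ^ f a, by rw [D_pow]; simpa using h, by rw [D_pow]; rfl⟩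
  have h : REPred fun x : α × ℕ => f x.1 ∈ bits x.2 :=
    RE.mem_list (f := fun x : α × ℕ => f x.1) (l := fun x => bits x.2)
      (hf.comp Computable.fst) (by fun_prop)
  exact h.of_eq fun x => mem_bits

theorem sig_and {P Q : α → Set ℕ → Prop} (hP : Sig P) (hQ : Sig Q) :
    Sig fun a A => P a A ∧ Q a A := by
  refine sig_of (RE.and hP.re hQ.re) (fun a A B h h' => ⟨hP.mono h h'.1, hQ.mono h h'.2⟩) ?_
  rintro a A ⟨h1, h2⟩
  obtain ⟨u, hu, hu'⟩ := hP.use h1
  obtain ⟨v, hv, hv'⟩ := hQ.use h2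
  refine ⟨u ||| v, by rw [D_or]; exact Set.union_subset hu hv, hP.mono ?_ hu', hQ.mono ?_ hv'⟩
  · rw [D_or]; exact Set.subset_union_left
  · rw [D_or]; exact Set.subset_union_right

theorem sig_or {P Q : α → Set ℕ → Prop} (hP : Sig P) (hQ : Sig Q) :
    Sig fun a A => P a A ∨ Q a A := by
  refine sig_of (RE.or hP.re hQ.re) (fun a A B h h' => h'.imp (hP.mono h) (hQ.mono h)) ?_
  rintro a A (h1 | h2)
  · obtain ⟨u, hu, hu'⟩ := hP.use h1
    exact ⟨u, hu, Or.inl hu'⟩
  · obtain ⟨u, hu, hu'⟩ := hQ.use h2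
    exact ⟨u, hu, Or.inr hu'⟩

theorem sig_comp {P : β → Set ℕ → Prop} (hP : Sig P) {f : α → β} (hf : Computable f) :
    Sig fun a A => P (f a) A := by
  refine sig_of (RE.comp hP.re (f := fun x : α × ℕ => (f x.1, x.2)) ?_)
    (fun a A B h h' => hP.mono h h') fun a A h => hP.use h
  exact (hf.comp Computable.fst).pair Computable.snd

theorem sig_ex {P : α → β → Set ℕ → Prop} (hP : Sig fun (x : α × β) A => P x.1 x.2 A) :
    Sig fun a A => ∃ b, P a b A := by
  refine sig_of ?_ ?_ ?_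
  · refine RE.ex (p := fun (x : α × ℕ) (b : β) => P x.1 b (D x.2)) ?_
    exact RE.comp hP.re (f := fun y : (α × ℕ) × β => ((y.1.1, y.2), y.1.2)) (by fun_prop)
  · rintro a A B h ⟨b, hb⟩
    exact ⟨b, hP.mono (a := (a, b)) h hb⟩
  · rintro a A ⟨b, hb⟩
    obtain ⟨u, hu, hu'⟩ := hP.use (a := (a, b)) hb
    exact ⟨u, hu, b, hu'⟩

theorem sig_ex_mem {P : α → β → Set ℕ → Prop} (hP : Sig fun (x : α × β) A => P x.1 x.2 A)
    {l : α → List β} (hl : Computable l) : Sig fun a A => ∃ b ∈ l a, P a b A := by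
  have h : Sig fun a A => ∃ b, b ∈ l a ∧ P a b A :=
    sig_ex (P := fun (a : α) (b : β) A => b ∈ l a ∧ P a b A)
      (sig_and (sig_re (RE.mem_list (f := fun x : α × β => x.2) (l := fun x => l x.1)
        (by fun_prop) (hl.comp Computable.fst))) hP)
  exact h

theorem sig_all_mem {P : α → β → Set ℕ → Prop} (hP : Sig fun (x : α × β) A => P x.1 x.2 A)
    {l : α → List β} (hl : Computable l) : Sig fun a A => ∀ b ∈ l a, P a b A := by
  refine sig_of ?_ ?_ ?_
  · refine RE.all_mem (p := fun (x : α × ℕ) (b : β) => P x.1 b (D x.2)) (l := fun x => l x.1) ?_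
      (hl.comp Computable.fst)
    exact RE.comp hP.re (f := fun y : (α × ℕ) × β => ((y.1.1, y.2), y.1.2)) (by fun_prop)
  · intro a A B h hA b hb
    exact hP.mono (a := (a, b)) h (hA b hb)
  · intro a A hA
    have key : ∀ L : List β, (∀ b ∈ L, P a b A) → ∃ u, D u ⊆ A ∧ ∀ b ∈ L, P a b (D u) := by
      intro L
      induction L with
      | nil => exact fun _ => ⟨0, by rw [D_zero]; exact Set.empty_subset _, by simp⟩
      | cons b L ih =>
        intro h
        obtain ⟨u, hu, hu'⟩ := ih fun c hc => h c (List.mem_cons_of_mem _ hc)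
        obtain ⟨v, hv, hv'⟩ := hP.use (a := (a, b)) (h b List.mem_cons_self)
        refine ⟨u ||| v, by rw [D_or]; exact Set.union_subset hu hv, ?_⟩
        intro c hc
        rcases List.mem_cons.1 hc with rfl | hc
        · exact hP.mono (a := (a, c)) (by rw [D_or]; exact Set.subset_union_right) hv'
        · exact hP.mono (a := (a, c)) (by rw [D_or]; exact Set.subset_union_left) (hu' c hc)
    exact key (l a) hA

/-- truth of codes is uniformly `Σ⁰₁⟨A⟩` -/
theorem sig_T : Sig fun (q : ℕ) (A : Set ℕ) => T A q := by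
  refine ⟨fun x : ℕ × ℕ => ∃ s, RE.wst ℕ x.1 s x.2 = true, ?_, fun q A => Iff.rfl⟩
  refine RE.exN (p := fun (x : ℕ × ℕ) (s : ℕ) => RE.wst ℕ x.1 s x.2 = true) (RE.of_bool ?_)
  exact RE.wst_comp.comp (f := fun p : (ℕ × ℕ) × ℕ => RE.wst ℕ p.1.1 p.1.2 p.2)
    (g := fun x : (ℕ × ℕ) × ℕ => ((x.1.1, x.2), x.1.2)) (by fun_prop)

/-- the s-m-n theorem -/
theorem smn {p : α × ℕ → Prop} (hp : REPred p) :
    ∃ h : α → ℕ, Computable h ∧ ∀ a u, p (a, u) ↔ ∃ s, RE.wst ℕ (h a) s u = true := by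
  have hp' : Partrec fun x : α × ℕ => Part.assert (p x) fun _ => Part.some () := hp
  -- a code for the predicate on pairs of numbers
  have h1 : Nat.Partrec fun n => Part.bind (Part.ofOption (Encodable.decode (α := α × ℕ) n))
      fun x => (Part.assert (p x) fun _ => Part.some ()).map Encodable.encode := hp'
  obtain ⟨c, hc⟩ := Nat.Partrec.Code.exists_code.1 h1
  refine ⟨fun a => Encodable.encode (Nat.Partrec.Code.curry c (Encodable.encode a)), ?_, ?_⟩
  · refine Computable.encode.comp ?_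
    exact (Nat.Partrec.Code.primrec₂_curry.to_comp).comp (Computable.const c) Computable.encode
  · intro a u
    have h2 : Nat.Partrec.Code.eval (Nat.Partrec.Code.curry c (Encodable.encode a)) u =
        (Part.assert (p (a, u)) fun _ => Part.some ()).map Encodable.encode := by
      rw [Nat.Partrec.Code.eval_curry, hc]
      have h3 : Encodable.decode (α := α × ℕ) (Nat.pair (Encodable.encode a) u) = some (a, u) := by
        have h4 : Nat.pair (Encodable.encode a) u = Encodable.encode (a, u) := by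
          simp
        rw [h4, Encodable.encodek]
      simp only [h3]
      simp
    have h5 : p (a, u) ↔
        (Nat.Partrec.Code.eval (Nat.Partrec.Code.curry c (Encodable.encode a)) u).Dom := by
      rw [h2]
      simp only [Part.map_Dom]
      constructor
      · intro h; exact ⟨h, trivial⟩
      · rintro ⟨h, -⟩; exact h
    unfold RE.wst
    rw [h5, Part.dom_iff_mem, Denumerable.ofNat_encode]
    constructor
    · rintro ⟨y, hy⟩
      obtain ⟨k, hk⟩ := Nat.Partrec.Code.evaln_complete.1 hy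
      refine ⟨k, ?_⟩
      rw [Option.mem_def] at hk
      simp only [Encodable.encode_nat]
      rw [hk]; rfl
    · rintro ⟨k, hk⟩
      obtain ⟨y, hy⟩ := Option.isSome_iff_exists.1 hk
      exact ⟨y, Nat.Partrec.Code.evaln_complete.2 ⟨k, hy⟩⟩

/-- codes of uniformly `Σ⁰₁⟨A⟩` properties -/
theorem sig_code {P : α → Set ℕ → Prop} (hP : Sig P) :
    ∃ h : α → ℕ, Computable h ∧ ∀ a A, T A (h a) ↔ P a A := by
  obtain ⟨R, hR', hR⟩ := hP
  obtain ⟨h, hh, hh'⟩ := smn hR'
  refine ⟨h, hh, fun a A => ?_⟩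
  rw [hR]
  constructor
  · rintro ⟨u, h1, h2⟩
    exact ⟨u, (hh' a u).2 h1, h2⟩
  · rintro ⟨u, h1, h2⟩
    exact ⟨u, (hh' a u).1 h1, h2⟩

/-- a uniformly `Σ⁰₁⟨A⟩` property gives an enumeration reduction -/
theorem ered_of_sig {P : ℕ → Set ℕ → Prop} (hP : Sig P) (A B : Set ℕ)
    (h : ∀ n, n ∈ B ↔ P n A) : ERed B A := by
  obtain ⟨R, hR', hR⟩ := hP
  refine ⟨{p | R p}, hR', ?_⟩
  ext n
  rw [h, hR]
  rfl

/-- an enumeration reduction gives a uniformly `Σ⁰₁` property -/
theorem sig_app (e : ℕ) : Sig fun (n : ℕ) (A : Set ℕ) => n ∈ app (W e) A :=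
  ⟨fun p => p ∈ W e, W_re e, fun _ _ => Iff.rfl⟩

end R624GT
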