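import Pool.Agent.R624.GT.Lib
import Pool.Agent.R624.GT.Dens

set_option autoImplicit false

open Set

namespace R624GT

open Pool.Agent.R624.EDeg
open Pool.Agent.Helper446
open Pool.Agent.Helper446.RE (cid cconst ccomp cfst csnd cpair cadd csub cmul cmin cmax csucc
  cappend ccons clength cgetElem cencode cdecode csome cisSome cnot cand cor cunpair cnatpair
  cmapsnd cmapfst ccond)

namespace RSAux

@[fun_prop] theorem cbodd {α : Type} [Primcodable α] {f : α → ℕ} (hf : Computable f) :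
    Computable (fun x => (f x).bodd) := Primrec.nat_bodd.to_comp.comp hf

@[fun_prop] theorem cdiv2 {α : Type} [Primcodable α] {f : α → ℕ} (hf : Computable f) :
    Computable (fun x => (f x).div2) := Primrec.nat_div2.to_comp.comp hf

/-- the total set of `x` -/
def hx (x : ℕ → Bool) : Set ℕ := {m | x m.div2 = !m.bodd}

/-- the finite part given by a string -/
def hat (ρ : List Bool) : Set ℕ := {m | ρ[m.div2]? = some (!m.bodd)}

theorem mem_join {A B : Set ℕ} {z : ℕ} : z ∈ join A B ↔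
    (z.bodd = false ∧ z.div2 ∈ A) ∨ (z.bodd = true ∧ z.div2 ∈ B) := by
  constructor
  · rintro (⟨n, hn, rfl⟩ | ⟨n, hn, rfl⟩)
    · left
      refine ⟨by simp, ?_⟩
      have : (2 * n).div2 = n := by rw [Nat.div2_val]; omega
      rwa [this]
    · right
      refine ⟨by simp, ?_⟩
      have : (2 * n + 1).div2 = n := by rw [Nat.div2_val]; omega
      rwa [this]
  · have h := Nat.bodd_add_div2 z
    rintro (⟨h1, h2⟩ | ⟨h1, h2⟩)
    · left
      refine ⟨_, h2, ?_⟩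
      rw [h1] at h
      simpa using h.symm
    · right
      refine ⟨_, h2, ?_⟩
      rw [h1] at h
      simp only [Bool.toNat_true] at h
      omega

theorem hx_eq (X : Set ℕ) (x : ℕ → Bool) (h : ∀ n, n ∈ X ↔ x n = true) :
    join X Xᶜ = hx x := by
  ext z
  rw [mem_join]
  have h1 : z ∈ hx x ↔ x z.div2 = !z.bodd := Iff.rfl
  rw [h1]
  have h2 : z.div2 ∈ Xᶜ ↔ ¬ z.div2 ∈ X := Iff.rfl
  rw [h2, h]
  cases z.bodd <;> cases x z.div2 <;> simp

/-- the set of the `x` with the reductions `e`, `e'` -/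
def SS (A : Set ℕ) (e e' : ℕ) : Set (ℕ → Bool) :=
  {x | ∃ c : ℕ → Bool, hx c = app (W e) (join A (hx x)) ∧ A = app (W e') (hx c)}

theorem cover (A : Set ℕ) (hA : AT A) :
    ((⋃ i : ℕ, SS A i.unpair.1 i.unpair.2)ᶜ).Countable := by
  classical
  have hsub : (⋃ i : ℕ, SS A i.unpair.1 i.unpair.2)ᶜ ⊆ {x | ∃ e, hx x = app (W e) A} := by
    intro x hx'
    set X : Set ℕ := {n | x n = true} with hX
    have hXx : join X Xᶜ = hx x := hx_eq X x fun n => Iff.rfl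
    rcases hA X with h | ⟨C, h1, h2⟩
    · rw [hXx] at h
      exact ered_iff.1 h
    · exfalso
      apply hx'
      rw [hXx] at h1 h2
      let c : ℕ → Bool := fun n => decide (n ∈ C)
      have hc : join C Cᶜ = hx c := hx_eq C c fun n => by simp [c]
      rw [hc] at h1 h2
      have h3 : ERed A (join A (hx x)) := by
        refine ered_of_comp (f := fun n => 2 * n) (by fun_prop) fun n => ?_
        rw [mem_join]
        have : (2 * n).div2 = n := by rw [Nat.div2_val]; omega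
        rw [this]
        simp
      obtain ⟨e, he⟩ := ered_iff.1 h2
      obtain ⟨e', he'⟩ := ered_iff.1 (ered_trans h3 h1)
      rw [mem_iUnion]
      refine ⟨Nat.pair e e', c, ?_, ?_⟩
      · rw [Nat.unpair_pair]; exact he
      · rw [Nat.unpair_pair]; exact he'
  refine Countable.mono hsub ?_
  have hinj : Function.Injective hx := by
    intro x y hxy
    funext n
    have h1 : ∀ z : ℕ → Bool, 2 * n ∈ hx z ↔ z n = true := by
      intro z
      have h2 : 2 * n ∈ hx z ↔ z (2 * n).div2 = !(2 * n).bodd := Iff.rfl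
      rw [h2]
      have : (2 * n).div2 = n := by rw [Nat.div2_val]; omega
      rw [this]
      simp
    have h2 := h1 x
    rw [hxy, h1 y] at h2
    cases hx : x n <;> cases hy : y n <;> simp_all
  have h2 : {x | ∃ e, hx x = app (W e) A} = hx ⁻¹' (range fun e => app (W e) A) := by
    ext x
    constructor
    · rintro ⟨e, he⟩
      exact ⟨e, he.symm⟩
    · rintro ⟨e, he⟩
      exact ⟨e, he.symm⟩
  rw [h2]
  exact (countable_range _).preimage hinj

/-! ### The relations -/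

section rel

variable (A : Set ℕ) (e e' : ℕ)

/-- the information of `η` is enumerated -/
def Dec (e : ℕ) (ρ η : List Bool) (A : Set ℕ) : Prop :=
  ∀ m ∈ List.range (2 * η.length), η[m.div2]? ≠ some (!m.bodd) ∨ m ∈ app (W e) (join A (hat ρ))

theorem dec_iff {e : ℕ} {ρ η : List Bool} {A : Set ℕ} :
    Dec e ρ η A ↔ hat η ⊆ app (W e) (join A (hat ρ)) := by
  constructor
  · intro h m hm
    have hm' : η[m.div2]? = some (!m.bodd) := hm
    have h1 : m.div2 < η.length := (List.getElem?_eq_some_iff.1 hm').1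
    have h2 : m < 2 * η.length := by
      rw [Nat.div2_val] at h1; omega
    rcases h m (List.mem_range.2 h2) with h3 | h3
    · exact absurd hm' h3
    · exact h3
  · intro h m _
    by_cases hm : η[m.div2]? = some (!m.bodd)
    · exact Or.inr (h hm)
    · exact Or.inl hm

/-- `n` is accepted within `k` steps from the information of `η` -/
def Acc (e' n k : ℕ) (η : List Bool) : Prop :=
  ∃ v, v < k ∧ RE.wst (ℕ × ℕ) e' k (n, v) = true ∧ ∀ i ∈ bits v, η[i.div2]? = some (!i.bodd)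

theorem re_acc : REPred fun x : (ℕ × ℕ) × List Bool => Acc e' x.1.1 x.1.2 x.2 := by
  refine RE.exN (p := fun (x : (ℕ × ℕ) × List Bool) (v : ℕ) => v < x.1.2 ∧
    RE.wst (ℕ × ℕ) e' x.1.2 (x.1.1, v) = true ∧ ∀ i ∈ bits v, x.2[i.div2]? = some (!i.bodd)) ?_
  refine RE.and (RE.lt (by fun_prop) (by fun_prop)) (RE.and (RE.of_bool ?_) ?_)
  · exact RE.wst_comp.comp (f := fun p : (ℕ × ℕ) × (ℕ × ℕ) => RE.wst (ℕ × ℕ) p.1.1 p.1.2 p.2)
      (g := fun x : ((ℕ × ℕ) × List Bool) × ℕ => ((e', x.1.1.2), (x.1.1.1, x.2))) (by fun_prop)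
  · refine RE.all_mem (p := fun (x : ((ℕ × ℕ) × List Bool) × ℕ) (i : ℕ) =>
      x.1.2[i.div2]? = some (!i.bodd)) (l := fun x => bits x.2) ?_ (by fun_prop)
    exact RE.eq (by fun_prop) (by fun_prop)

theorem re_nacc : REPred fun x : (ℕ × ℕ) × List Bool => ¬ Acc e' x.1.1 x.1.2 x.2 := by
  have h : REPred fun x : (ℕ × ℕ) × List Bool => ∀ v < x.1.2,
      RE.wst (ℕ × ℕ) e' x.1.2 (x.1.1, v) ≠ true ∨
        ∃ i ∈ bits v, x.2[i.div2]? ≠ some (!i.bodd) := by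
    refine RE.all_lt (p := fun (x : (ℕ × ℕ) × List Bool) (v : ℕ) =>
      RE.wst (ℕ × ℕ) e' x.1.2 (x.1.1, v) ≠ true ∨
        ∃ i ∈ bits v, x.2[i.div2]? ≠ some (!i.bodd)) ?_ (by fun_prop)
    refine RE.or (RE.ne ?_ (Computable.const true)) ?_
    · exact RE.wst_comp.comp (f := fun p : (ℕ × ℕ) × (ℕ × ℕ) => RE.wst (ℕ × ℕ) p.1.1 p.1.2 p.2)
        (g := fun x : ((ℕ × ℕ) × List Bool) × ℕ => ((e', x.1.1.2), (x.1.1.1, x.2))) (by fun_prop)
    · refine RE.ex_mem (p := fun (x : ((ℕ × ℕ) × List Bool) × ℕ) (i : ℕ) =>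
        x.1.2[i.div2]? ≠ some (!i.bodd)) (l := fun x => bits x.2) ?_ (by fun_prop)
      exact RE.ne (by fun_prop) (by fun_prop)
  refine h.of_eq fun x => ?_
  unfold Acc
  push Not
  constructor
  · intro h1 v hv hw
    rcases h1 v hv with h2 | h2
    · exact absurd hw h2
    · exact h2
  · intro h1 v hv
    by_cases hw : RE.wst (ℕ × ℕ) e' x.1.2 (x.1.1, v) = true
    · exact Or.inr (h1 v hv hw)
    · exact Or.inl hw

theorem sig_dec : Sig fun (x : List Bool × List Bool) (A : Set ℕ) => Dec e x.1 x.2 A := by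
  unfold Dec
  refine sig_all_mem (P := fun (x : List Bool × List Bool) (m : ℕ) (A : Set ℕ) =>
    x.2[m.div2]? ≠ some (!m.bodd) ∨ m ∈ app (W e) (join A (hat x.1)))
    (l := fun x => List.range (2 * x.2.length)) ?_
    (Primrec.list_range.to_comp.comp (by fun_prop))
  refine sig_or (sig_re (RE.ne (by fun_prop) (by fun_prop))) ?_
  have h : Sig fun (x : (List Bool × List Bool) × ℕ) (A : Set ℕ) =>
      ∃ u : ℕ, (x.2, u) ∈ W e ∧ ∀ j ∈ bits u, (j.bodd = false ∧ j.div2 ∈ A) ∨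
        (j.bodd = true ∧ x.1.1[j.div2.div2]? = some (!j.div2.bodd)) := by
    refine sig_ex (P := fun (x : (List Bool × List Bool) × ℕ) (u : ℕ) (A : Set ℕ) =>
      (x.2, u) ∈ W e ∧ ∀ j ∈ bits u, (j.bodd = false ∧ j.div2 ∈ A) ∨
        (j.bodd = true ∧ x.1.1[j.div2.div2]? = some (!j.div2.bodd))) ?_
    refine sig_and (sig_re (RE.comp (p := fun p : ℕ × ℕ => p ∈ W e) (W_re e)
      (f := fun x : ((List Bool × List Bool) × ℕ) × ℕ => (x.1.2, x.2)) (by fun_prop))) ?_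
    refine sig_all_mem (P := fun (x : ((List Bool × List Bool) × ℕ) × ℕ) (j : ℕ) (A : Set ℕ) =>
      (j.bodd = false ∧ j.div2 ∈ A) ∨
        (j.bodd = true ∧ x.1.1.1[j.div2.div2]? = some (!j.div2.bodd)))
      (l := fun x => bits x.2) ?_ (by fun_prop)
    refine sig_or (sig_and (sig_re (RE.eq (by fun_prop) (Computable.const false)))
      (sig_mem (by fun_prop))) (sig_re (RE.and (RE.eq (by fun_prop) (Computable.const true))
      (RE.eq (by fun_prop) (by fun_prop))))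
  have h2 : (fun (x : (List Bool × List Bool) × ℕ) (A : Set ℕ) =>
      ∃ u : ℕ, (x.2, u) ∈ W e ∧ ∀ j ∈ bits u, (j.bodd = false ∧ j.div2 ∈ A) ∨
        (j.bodd = true ∧ x.1.1[j.div2.div2]? = some (!j.div2.bodd))) =
      fun x A => x.2 ∈ app (W e) (join A (hat x.1.1)) := by
    funext x A
    apply propext
    constructor
    · rintro ⟨u, h1, h2⟩
      refine ⟨u, h1, fun j hj => ?_⟩
      rw [mem_join]
      exact h2 j (mem_bits.2 hj)
    · rintro ⟨u, h1, h2⟩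
      refine ⟨u, h1, fun j hj => ?_⟩
      have h3 := h2 (mem_bits.1 hj)
      rw [mem_join] at h3
      exact h3
  rw [h2] at h
  exact h

/-- a large finite set of strings all of whose members see an `η` with property `P` -/
def Gen (e : ℕ) (τ : List Bool) (P : ℕ × ℕ → List Bool → Prop) (nk : ℕ × ℕ) (A : Set ℕ) : Prop :=
  ∃ z : ℕ × List (List Bool), (τ.length ≤ z.1 ∧ z.2.Nodup ∧
    (∀ ρ ∈ z.2, ρ.length = z.1 ∧ ∃ t, τ ++ t = ρ) ∧ 2 * 2 ^ z.1 < 3 * 2 ^ τ.length * z.2.length) ∧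
    ∀ ρ ∈ z.2, ∃ η : List Bool, (η.length = nk.2 ∧ P nk η) ∧ Dec e ρ η A

theorem sig_gen (τ : List Bool) (P : ℕ × ℕ → List Bool → Prop)
    (hP : REPred fun x : (ℕ × ℕ) × List Bool => P x.1 x.2) : Sig (Gen e τ P) := by
  unfold Gen
  refine sig_ex (P := fun (nk : ℕ × ℕ) (z : ℕ × List (List Bool)) (A : Set ℕ) =>
    (τ.length ≤ z.1 ∧ z.2.Nodup ∧
    (∀ ρ ∈ z.2, ρ.length = z.1 ∧ ∃ t, τ ++ t = ρ) ∧ 2 * 2 ^ z.1 < 3 * 2 ^ τ.length * z.2.length) ∧
    ∀ ρ ∈ z.2, ∃ η : List Bool, (η.length = nk.2 ∧ P nk η) ∧ Dec e ρ η A) ?_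
  refine sig_and (sig_re (RE.and (RE.le (by fun_prop) (by fun_prop)) (RE.and
    (RE.cp_nodup (by fun_prop)) (RE.and ?_ (RE.lt ?_ (by fun_prop)))))) ?_
  · refine RE.all_mem (p := fun (x : (ℕ × ℕ) × (ℕ × List (List Bool))) (ρ : List Bool) =>
      ρ.length = x.2.1 ∧ ∃ t, τ ++ t = ρ) (l := fun x => x.2.2) ?_ (by fun_prop)
    refine RE.and (RE.eq (by fun_prop) (by fun_prop)) ?_
    exact RE.ex (p := fun (x : ((ℕ × ℕ) × (ℕ × List (List Bool))) × List Bool) (t : List Bool) =>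
      τ ++ t = x.2) (RE.eq (by fun_prop) (by fun_prop))
  · exact cmul (by fun_prop) (cpow.comp (by fun_prop))
  · refine sig_all_mem (P := fun (x : (ℕ × ℕ) × (ℕ × List (List Bool))) (ρ : List Bool)
      (A : Set ℕ) => ∃ η : List Bool, (η.length = x.1.2 ∧ P x.1 η) ∧ Dec e ρ η A)
      (l := fun x => x.2.2) ?_ (by fun_prop)
    refine sig_ex (P := fun (x : ((ℕ × ℕ) × (ℕ × List (List Bool))) × List Bool) (η : List Bool)
      (A : Set ℕ) => (η.length = x.1.1.2 ∧ P x.1.1 η) ∧ Dec e x.2 η A) ?_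
    refine sig_and (sig_re (RE.and (RE.eq (by fun_prop) (by fun_prop)) ?_)) ?_
    · exact RE.comp hP (f := fun x : (((ℕ × ℕ) × (ℕ × List (List Bool))) × List Bool) × List Bool =>
        (x.1.1.1, x.2)) (by fun_prop)
    · exact sig_comp (sig_dec e) (f := fun x : (((ℕ × ℕ) × (ℕ × List (List Bool))) × List Bool) ×
        List Bool => (x.1.2, x.2)) (by fun_prop)

end rel

/-! ### Facts on strings -/

theorem getElem?_pre (x : ℕ → Bool) (l i : ℕ) :
    (pre x l)[i]? = if i < l then some (x i) else none := by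
  unfold pre
  rw [List.getElem?_map]
  by_cases h : i < l
  · rw [List.getElem?_range h, if_pos h]
    rfl
  · rw [if_neg h, List.getElem?_eq_none (by simpa using h)]
    rfl

theorem mem_hat_pre {x : ℕ → Bool} {l m : ℕ} : m ∈ hat (pre x l) ↔ m ∈ hx x ∧ m.div2 < l := by
  have h1 : m ∈ hat (pre x l) ↔ (pre x l)[m.div2]? = some (!m.bodd) := Iff.rfl
  have h2 : m ∈ hx x ↔ x m.div2 = !m.bodd := Iff.rfl
  rw [h1, h2, getElem?_pre]
  by_cases h : m.div2 < l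
  · rw [if_pos h]; simp [h]
  · rw [if_neg h]; simp [h]

theorem hat_mono {ρ ρ' : List Bool} (h : ρ <+: ρ') : hat ρ ⊆ hat ρ' := by
  intro m hm
  have hm' : ρ[m.div2]? = some (!m.bodd) := hm
  obtain ⟨t, rfl⟩ := h
  have h1 : m.div2 < ρ.length := (List.getElem?_eq_some_iff.1 hm').1
  have h2 : (ρ ++ t)[m.div2]? = some (!m.bodd) := by
    rw [List.getElem?_append_left h1]; exact hm'
  exact h2

theorem join_mono {A B B' : Set ℕ} (h : B ⊆ B') : join A B ⊆ join A B' := by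
  intro z hz
  rw [mem_join] at hz ⊢
  exact hz.imp id fun h' => ⟨h'.1, h h'.2⟩

theorem dec_mono {e : ℕ} {ρ ρ' η : List Bool} {A : Set ℕ} (h : ρ <+: ρ') (hd : Dec e ρ η A) :
    Dec e ρ' η A := by
  rw [dec_iff] at hd ⊢
  exact hd.trans (app_mono (join_mono (hat_mono h)))

theorem dec_eq {e : ℕ} {A : Set ℕ} {x c : ℕ → Bool} (hc : hx c = app (W e) (join A (hx x)))
    {l : ℕ} {η : List Bool} (hd : Dec e (pre x l) η A) : η = pre c η.length := by
  rw [dec_iff] at hd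
  apply List.ext_getElem?
  intro i
  rw [getElem?_pre]
  by_cases h : i < η.length
  · rw [if_pos h, List.getElem?_eq_getElem h]
    congr 1
    set b := η[i] with hb
    set m : ℕ := Nat.bit (!b) i with hm
    have h1 : m.div2 = i := by rw [hm, Nat.div2_bit]
    have h2 : m.bodd = !b := by rw [hm, Nat.bodd_bit]
    have h3 : m ∈ hat η := by
      have : η[m.div2]? = some (!m.bodd) := by
        rw [h1, h2, List.getElem?_eq_getElem h, Bool.not_not]
      exact this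
    have h4 : m ∈ hx c := by
      rw [hc]
      refine app_mono (join_mono ?_) (hd h3)
      intro z hz
      exact (mem_hat_pre.1 hz).1
    have h5 : c m.div2 = !m.bodd := h4
    rw [h1, h2, Bool.not_not] at h5
    exact h5.symm
  · rw [if_neg h, List.getElem?_eq_none (by omega)]

theorem mem_lt {u z : ℕ} (h : z ∈ D u) : z < u := by
  have h1 := mem_bits.2 h
  unfold bits at h1
  rw [List.mem_filter] at h1
  exact List.mem_range.1 h1.1

theorem exists_dec {e : ℕ} {A : Set ℕ} {x c : ℕ → Bool} (hc : hx c = app (W e) (join A (hx x)))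
    (k : ℕ) : ∃ l0, ∀ l, l0 ≤ l → Dec e (pre x l) (pre c k) A := by
  have h1 : ∀ m, ∃ u, m ∈ hx c → (m, u) ∈ W e ∧ D u ⊆ join A (hx x) := by
    intro m
    by_cases hm : m ∈ hx c
    · rw [hc] at hm
      obtain ⟨u, hu⟩ := hm
      exact ⟨u, fun _ => hu⟩
    · exact ⟨0, fun h => absurd h hm⟩
  choose u hu using h1
  refine ⟨(Finset.range (2 * k)).sup u, fun l hl => ?_⟩
  rw [dec_iff]
  intro m hm
  obtain ⟨h2, h3⟩ := mem_hat_pre.1 hm
  obtain ⟨h4, h5⟩ := hu m h2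
  refine ⟨u m, h4, fun z hz => ?_⟩
  have h6 := h5 hz
  rw [mem_join] at h6 ⊢
  refine h6.imp id fun h7 => ⟨h7.1, mem_hat_pre.2 ⟨h7.2, ?_⟩⟩
  have h8 := mem_lt hz
  have h9 : u m ≤ l := by
    refine le_trans (Finset.le_sup (f := u) ?_) hl
    rw [Finset.mem_range]
    rw [Nat.div2_val] at h3; omega
  rw [Nat.div2_val, Nat.div2_val]
  omega

theorem acc_mem {e' n k k' : ℕ} {c : ℕ → Bool} (h : Acc e' n k (pre c k')) :
    n ∈ app (W e') (hx c) := by
  obtain ⟨v, -, h2, h3⟩ := h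
  refine ⟨v, ⟨k, h2⟩, fun i hi => ?_⟩
  exact (mem_hat_pre.1 (h3 i (mem_bits.2 hi))).1

theorem acc_mono {e' n k k' : ℕ} {c : ℕ → Bool} (hk : k ≤ k') (h : Acc e' n k (pre c k)) :
    Acc e' n k' (pre c k') := by
  obtain ⟨v, h1, h2, h3⟩ := h
  refine ⟨v, by omega, RE.wst_mono hk h2, fun i hi => ?_⟩
  exact hat_mono (DensAux.pre_prefix c hk) (h3 i hi)

theorem exists_acc {e' n : ℕ} {c : ℕ → Bool} (h : n ∈ app (W e') (hx c)) :
    ∃ k, Acc e' n k (pre c k) := by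
  obtain ⟨v, ⟨s, hs⟩, hv⟩ := h
  refine ⟨max (v + 1) s, v, by omega, RE.wst_mono (le_max_right _ _) hs, fun i hi => ?_⟩
  have h1 := mem_bits.1 hi
  have h2 := mem_lt h1
  have h3 : i ∈ hat (pre c (max (v + 1) s)) := mem_hat_pre.2 ⟨hv h1, by rw [Nat.div2_val]; omega⟩
  exact h3

/-! ### Counting -/

theorem cnt_list {τ : List Bool} {l : ℕ} {L : List (List Bool)} (hL : L.Nodup)
    (h : ∀ ρ ∈ L, ρ.length = l ∧ ∃ t, τ ++ t = ρ) : cnt τ l (fun ρ => ρ ∈ L) = L.length := by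
  classical
  unfold cnt
  have h1 : {ρ : List Bool | ρ.length = l ∧ τ <+: ρ ∧ ρ ∈ L} = (L.toFinset : Set (List Bool)) := by
    ext ρ
    rw [Finset.mem_coe, List.mem_toFinset]
    constructor
    · exact fun h2 => h2.2.2
    · exact fun h2 => ⟨(h ρ h2).1, (h ρ h2).2, h2⟩
  rw [h1, Set.ncard_coe_finset, List.toFinset_card_of_nodup hL]

theorem exists_list (τ : List Bool) (l : ℕ) (Q : List Bool → Prop) :
    ∃ L : List (List Bool), L.Nodup ∧ (∀ ρ ∈ L, (ρ.length = l ∧ ∃ t, τ ++ t = ρ) ∧ Q ρ) ∧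
      L.length = cnt τ l Q := by
  have hfin : {ρ : List Bool | ρ.length = l ∧ τ <+: ρ ∧ Q ρ}.Finite :=
    (List.finite_length_eq Bool l).subset fun ρ h => h.1
  refine ⟨hfin.toFinset.toList, Finset.nodup_toList _, ?_, ?_⟩
  · intro ρ hρ
    rw [Finset.mem_toList, Set.Finite.mem_toFinset] at hρ
    exact ⟨⟨hρ.1, hρ.2.1⟩, hρ.2.2⟩
  · rw [Finset.length_toList, cnt, Set.ncard_eq_toFinset_card _ hfin]

open DensAux MeasureTheory in
/-- two large sets of strings have a large intersection -/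
theorem inter_large {τ : List Bool} {l l' : ℕ} {L L' : List (List Bool)} (hl : τ.length ≤ l)
    (hl' : τ.length ≤ l') (hL : L.Nodup) (hL' : L'.Nodup)
    (h : ∀ ρ ∈ L, ρ.length = l ∧ ∃ t, τ ++ t = ρ) (h' : ∀ ρ ∈ L', ρ.length = l' ∧ ∃ t, τ ++ t = ρ)
    (hc : 2 * 2 ^ l < 3 * 2 ^ τ.length * L.length) (hc' : 2 * 2 ^ l' < 3 * 2 ^ τ.length * L'.length) :
    2 ^ (max l l') < 3 * 2 ^ τ.length * cnt τ (max l l')
      (fun ρ => (∃ ρ1 ∈ L, ρ1 <+: ρ) ∧ ∃ ρ2 ∈ L', ρ2 <+: ρ) := by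
  set M := max l l' with hM
  have hlM : τ.length ≤ M := hl.trans (le_max_left l l')
  have key : ∀ (l : ℕ) (L : List (List Bool)), l ≤ M → τ.length ≤ l → L.Nodup →
      (∀ ρ ∈ L, ρ.length = l ∧ ∃ t, τ ++ t = ρ) → 2 * 2 ^ l < 3 * 2 ^ τ.length * L.length →
      ENNReal.ofReal (2 / 3 * (1 / 2) ^ τ.length) <
        mu (cyl τ ∩ {x | ∃ ρ1 ∈ L, ρ1 <+: pre x M}) := by
    intro l L hlM hl hL h hc
    have h1 := level_cnt τ l (fun ρ => ρ ∈ L) hl
    rw [cnt_list hL h] at h1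
    have h2 : cyl τ ∩ {x | (fun ρ => ρ ∈ L) (pre x l)} ⊆
        cyl τ ∩ {x | ∃ ρ1 ∈ L, ρ1 <+: pre x M} := by
      rintro x ⟨h3, h4⟩
      exact ⟨h3, pre x l, h4, pre_prefix x hlM⟩
    refine lt_of_lt_of_le ?_ (measure_mono h2)
    rw [h1, ENNReal.ofReal_lt_ofReal_iff_of_nonneg (by positivity)]
    have h3 : 2 * (2 : ℝ) ^ l < 3 * 2 ^ τ.length * L.length := by exact_mod_cast hc
    rw [one_div, inv_pow, inv_pow, ← div_eq_mul_inv (L.length : ℝ), lt_div_iff₀ (by positivity)]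
    calc 2 / 3 * ((2 : ℝ) ^ τ.length)⁻¹ * 2 ^ l = (2 * 2 ^ l) / (3 * 2 ^ τ.length) := by
          field_simp
      _ < (3 * 2 ^ τ.length * L.length) / (3 * 2 ^ τ.length) := by gcongr
      _ = L.length := by field_simp
  have k1 := key l L (le_max_left _ _) hl hL h hc
  have k2 := key l' L' (le_max_right _ _) hl' hL' h' hc'
  set E := cyl τ ∩ {x | ∃ ρ1 ∈ L, ρ1 <+: pre x M} with hE
  set E' := cyl τ ∩ {x | ∃ ρ1 ∈ L', ρ1 <+: pre x M} with hE'
  have hmeas : MeasurableSet E' := by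
    have h1 : E' = ⋃ ρ ∈ {ρ : List Bool | ρ.length = M ∧ (τ <+: ρ ∧ ∃ ρ1 ∈ L', ρ1 <+: ρ)}, cyl ρ := by
      ext x
      simp only [Set.mem_iUnion]
      constructor
      · rintro ⟨h2, h3⟩
        refine ⟨pre x M, ⟨length_pre x M, ?_, h3⟩, ?_⟩
        · exact (prefix_pre_iff x τ hlM).2 h2
        · have h4 : pre x (pre x M).length = pre x M := by rw [length_pre]
          exact h4
      · rintro ⟨ρ, ⟨h2, h3, h4⟩, h5⟩
        have h6 : pre x ρ.length = ρ := h5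
        rw [h2] at h6
        refine ⟨?_, ?_⟩
        · refine (prefix_pre_iff x τ hlM).1 ?_
          rw [h6]; exact h3
        · have h7 : ∃ ρ1 ∈ L', ρ1 <+: pre x M := by rw [h6]; exact h4
          exact h7
    rw [h1]
    refine Set.Finite.measurableSet_biUnion ?_ fun ρ _ => measurable_cyl ρ
    exact (List.finite_length_eq Bool M).subset fun ρ h => h.1
  have h3 : mu (E ∪ E') + mu (E ∩ E') = mu E + mu E' := measure_union_add_inter E hmeas
  have h4 : mu (E ∪ E') ≤ mu (cyl τ) :=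
    measure_mono (union_subset inter_subset_left inter_subset_left)
  have h5 : E ∩ E' = cyl τ ∩ {x | (fun ρ => (∃ ρ1 ∈ L, ρ1 <+: ρ) ∧ ∃ ρ2 ∈ L', ρ2 <+: ρ) (pre x M)} := by
    ext x
    constructor
    · rintro ⟨⟨a1, a2⟩, ⟨a3, a4⟩⟩
      exact ⟨a1, a2, a4⟩
    · rintro ⟨a1, a2, a3⟩
      exact ⟨⟨a1, a2⟩, ⟨a1, a3⟩⟩
  have h6 : mu (E ∩ E') = ENNReal.ofReal (cnt τ M
      (fun ρ => (∃ ρ1 ∈ L, ρ1 <+: ρ) ∧ ∃ ρ2 ∈ L', ρ2 <+: ρ) * (1 / 2) ^ M) := by
    rw [h5]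
    exact level_cnt τ M (fun ρ => (∃ ρ1 ∈ L, ρ1 <+: ρ) ∧ ∃ ρ2 ∈ L', ρ2 <+: ρ) hlM
  set C := cnt τ M (fun ρ => (∃ ρ1 ∈ L, ρ1 <+: ρ) ∧ ∃ ρ2 ∈ L', ρ2 <+: ρ) with hC
  have h7 : ENNReal.ofReal (2 / 3 * (1 / 2) ^ τ.length) + ENNReal.ofReal (2 / 3 * (1 / 2) ^ τ.length)
      < ENNReal.ofReal ((1 / 2) ^ τ.length) + ENNReal.ofReal (C * (1 / 2) ^ M) := by
    calc _ < mu E + mu E' := ENNReal.add_lt_add k1 k2
      _ = mu (E ∪ E') + mu (E ∩ E') := h3.symm
      _ ≤ mu (cyl τ) + mu (E ∩ E') := add_le_add h4 le_rfl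
      _ = _ := by rw [mu_cyl, h6]
  rw [← ENNReal.ofReal_add (by positivity) (by positivity),
    ← ENNReal.ofReal_add (by positivity) (by positivity),
    ENNReal.ofReal_lt_ofReal_iff_of_nonneg (by positivity)] at h7
  have h8 : 1 / 3 * (1 / 2) ^ τ.length < (C : ℝ) * (1 / 2) ^ M := by linarith
  rw [one_div 2, inv_pow, inv_pow, ← div_eq_mul_inv (C : ℝ), lt_div_iff₀ (by positivity)] at h8
  have h9 : (2 : ℝ) ^ M < 3 * 2 ^ τ.length * C := by
    calc (2 : ℝ) ^ M = (1 / 3 * (2 ^ τ.length)⁻¹ * 2 ^ M) * (3 * 2 ^ τ.length) := by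
          field_simp
      _ < C * (3 * 2 ^ τ.length) := by gcongr
      _ = _ := by ring
  exact_mod_cast h9

end RSAux

open RSAux in
theorem s_rs : S_rs := by
  intro hdens A hA
  obtain ⟨i, τ, hB1, hB2⟩ := hdens _ (cover A hA)
  set e := i.unpair.1
  set e' := i.unpair.2
  refine ⟨Gen e τ (fun nk η => Acc e' nk.1 nk.2 η), Gen e τ (fun nk η => ¬ Acc e' nk.1 nk.2 η),
    sig_gen e τ _ (re_acc e'), sig_gen e τ _ (re_nacc e'), ?_, ?_, ?_⟩
  · -- disjointness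
    rintro n k ⟨⟨⟨l, L⟩, ⟨hl, hL, hLτ, hLc⟩, hLd⟩, ⟨⟨l', L'⟩, ⟨hl', hL', hLτ', hLc'⟩, hLd'⟩⟩
    dsimp only at hl hL hLτ hLc hLd hl' hL' hLτ' hLc' hLd'
    have h1 := inter_large hl hl' hL hL' hLτ hLτ' hLc hLc'
    obtain ⟨x, ⟨c, hc, -⟩, hτx, ⟨ρ1, hρ1, hp1⟩, ρ2, hρ2, hp2⟩ :=
      hB1 (max l l') (hl.trans (le_max_left _ _)) _ h1
    obtain ⟨η, ⟨hη, hacc⟩, hd⟩ := hLd ρ1 hρ1
    obtain ⟨η', ⟨hη', hacc'⟩, hd'⟩ := hLd' ρ2 hρ2
    have e1 := dec_eq hc (dec_mono hp1 hd)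
    have e2 := dec_eq hc (dec_mono hp2 hd')
    rw [hη] at e1
    rw [hη'] at e2
    rw [e1] at hacc
    rw [e2] at hacc'
    exact hacc' hacc
  · -- `n ∉ A`
    intro n k hn
    obtain ⟨-, l, hl, hcnt⟩ := hB2 (fun _ => SS A e e') monotone_const
      (fun x hx => mem_iUnion.2 ⟨0, hx.1⟩)
      (fun _ ρ => ∃ η : List Bool, (η.length = k ∧ ¬ Acc e' n k η) ∧ Dec e ρ η A)
      (fun _ ρ ρ' hρ ⟨η, h1, h2⟩ => ⟨η, h1, dec_mono hρ h2⟩) (by
        rintro _ x ⟨c, hc, hc'⟩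
        obtain ⟨l0, hl0⟩ := exists_dec hc k
        refine ⟨l0, pre c k, ⟨DensAux.length_pre c k, fun hacc => hn ?_⟩, hl0 l0 le_rfl⟩
        rw [hc']
        exact acc_mem hacc)
    obtain ⟨L, hL1, hL2, hL3⟩ := exists_list τ l
      (fun ρ => ∃ η : List Bool, (η.length = k ∧ ¬ Acc e' n k η) ∧ Dec e ρ η A)
    exact ⟨(l, L), ⟨hl, hL1, fun ρ hρ => (hL2 ρ hρ).1, by dsimp only; rw [hL3]; exact hcnt⟩,
      fun ρ hρ => (hL2 ρ hρ).2⟩
  · intro n
    constructor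
    · intro hn
      obtain ⟨k, l, hl, hcnt⟩ := hB2
        (fun j => {x | ∃ c : ℕ → Bool, hx c = app (W e) (join A (hx x)) ∧ A = app (W e') (hx c) ∧
          Acc e' n j (pre c j)})
        (by
          rintro j j' hj x ⟨c, h1, h2, h3⟩
          exact ⟨c, h1, h2, acc_mono hj h3⟩)
        (by
          rintro x ⟨⟨c, hc, hc'⟩, -⟩
          rw [hc'] at hn
          obtain ⟨k, hk⟩ := exists_acc hn
          exact mem_iUnion.2 ⟨k, c, hc, hc', hk⟩)
        (fun j ρ => ∃ η : List Bool, (η.length = j ∧ Acc e' n j η) ∧ Dec e ρ η A)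
        (fun _ ρ ρ' hρ ⟨η, h1, h2⟩ => ⟨η, h1, dec_mono hρ h2⟩) (by
          rintro j x ⟨c, hc, hc', hacc⟩
          obtain ⟨l0, hl0⟩ := exists_dec hc j
          exact ⟨l0, pre c j, ⟨DensAux.length_pre c j, hacc⟩, hl0 l0 le_rfl⟩)
      obtain ⟨L, hL1, hL2, hL3⟩ := exists_list τ l
        (fun ρ => ∃ η : List Bool, (η.length = k ∧ Acc e' n k η) ∧ Dec e ρ η A)
      exact ⟨k, (l, L), ⟨hl, hL1, fun ρ hρ => (hL2 ρ hρ).1, by dsimp only; rw [hL3]; exact hcnt⟩,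
        fun ρ hρ => (hL2 ρ hρ).2⟩
    · rintro ⟨k, ⟨l, L⟩, ⟨hl, hL, hLτ, hLc⟩, hLd⟩
      dsimp only at hl hL hLτ hLc hLd
      have h1 : 2 ^ l < 3 * 2 ^ τ.length * cnt τ l (fun ρ => ρ ∈ L) := by
        rw [cnt_list hL hLτ]
        have : 0 < 2 ^ l := by positivity
        omega
      obtain ⟨x, ⟨c, hc, hc'⟩, hτx, hρ⟩ := hB1 l hl _ h1
      obtain ⟨η, ⟨hη, hacc⟩, hd⟩ := hLd _ hρ
      have e1 := dec_eq hc hd
      rw [hη] at e1
      rw [e1] at hacc
      rw [hc']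
      exact acc_mem hacc

end R624GT
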